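import Mathlib

/-!
# MP_d01a95_gt, m = 2, part (1), block L: Cauchy formula in the half plane (helper72)
-/

set_option autoImplicit false
set_option linter.all false

open MeasureTheory Filter Topology Set Metric Complex

namespace Pool.Agent.MPd01a95.BU

/-- the closed upper half plane -/
def Hc : Set ℂ := {z | 0 ≤ z.im}

/-- the open upper half plane -/
def Ho : Set ℂ := {z | 0 < z.im}

theorem isOpen_Ho : IsOpen Ho := isOpen_lt continuous_const Complex.continuous_im

theorem isClosed_Hc : IsClosed Hc := isClosed_le continuous_const Complex.continuous_im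

theorem Ho_sub : Ho ⊆ Hc := by
  intro z hz
  have h : 0 < z.im := hz
  exact h.le

theorem integrable_dec {h : ℝ → ℂ} (hc : Continuous h) {C : ℝ}
    (hb : ∀ t, ‖h t‖ ≤ C / (1 + |t|) ^ 2) : Integrable h := by
  have h1 : Integrable fun t : ℝ => C * (2 * (1 + t ^ 2)⁻¹) :=
    (integrable_inv_one_add_sq.const_mul 2).const_mul C
  have hC : 0 ≤ C := by
    have := (norm_nonneg _).trans (hb 0)
    simpa using this
  refine h1.mono' hc.aestronglyMeasurable (Eventually.of_forall fun t => (hb t).trans ?_)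
  rw [div_eq_mul_inv]
  apply mul_le_mul_of_nonneg_left _ hC
  rw [← div_eq_mul_inv, le_div_iff₀ (by positivity), inv_mul_le_iff₀ (by positivity)]
  have : |t| ^ 2 = t ^ 2 := sq_abs t
  nlinarith [abs_nonneg t]

theorem tend_aux (C : ℝ) (k : ℝ) : Tendsto (fun T : ℝ => k * T * (C / (1 + T) ^ 2)) atTop (𝓝 0) := by
  have h1 : Tendsto (fun T : ℝ => (k * C) * (1 + T)⁻¹) atTop (𝓝 ((k * C) * 0)) := by
    apply Tendsto.const_mul
    exact tendsto_inv_atTop_zero.comp (tendsto_atTop_add_const_left _ _ tendsto_id)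
  have h2 : Tendsto (fun T : ℝ => (k * C) * ((1 + T)⁻¹ * (1 + T)⁻¹)) atTop (𝓝 ((k * C) * (0 * 0))) := by
    apply Tendsto.const_mul
    have := tendsto_inv_atTop_zero.comp (tendsto_atTop_add_const_left atTop (1 : ℝ) tendsto_id)
    exact this.mul this
  rw [mul_zero] at h1
  rw [mul_zero, mul_zero] at h2
  have h3 := h1.sub h2
  rw [sub_zero] at h3
  refine h3.congr' ?_
  filter_upwards [eventually_gt_atTop 0] with T hT
  field_simp
  ring

/-- **Cauchy theorem for the half plane.** -/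
theorem hp_zero {h : ℂ → ℂ} (hc : ContinuousOn h Hc) (hd : DifferentiableOn ℂ h Ho) {C : ℝ}
    (hb : ∀ z ∈ Hc, ‖h z‖ ≤ C / (1 + ‖z‖) ^ 2) : ∫ t : ℝ, h t = 0 := by
  have hC : 0 ≤ C := by
    have := (norm_nonneg _).trans (hb 0 (by simp [Hc]))
    simpa using this
  have hct : Continuous fun t : ℝ => h t :=
    hc.comp_continuous Complex.continuous_ofReal fun t => by simp [Hc]
  have hint : Integrable fun t : ℝ => h t := by
    apply integrable_dec hct (C := C)
    intro t
    have := hb t (by simp [Hc])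
    rwa [Complex.norm_real, Real.norm_eq_abs] at this
  have hlim : Tendsto (fun T : ℝ => ∫ t in (-T)..T, h t) atTop (𝓝 (∫ t : ℝ, h t)) :=
    intervalIntegral_tendsto_integral hint tendsto_neg_atTop_atBot tendsto_id
  have hzero : Tendsto (fun T : ℝ => ∫ t in (-T)..T, h t) atTop (𝓝 0) := by
    apply squeeze_zero_norm' (a := fun T : ℝ => 2 * T * (C / (1 + T) ^ 2) +
      1 * T * (C / (1 + T) ^ 2) + 1 * T * (C / (1 + T) ^ 2))
    · filter_upwards [eventually_gt_atTop 0] with T hT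
      have hrect := Complex.integral_boundary_rect_eq_zero_of_continuousOn_of_differentiableOn h
        (⟨-T, 0⟩ : ℂ) (⟨T, T⟩ : ℂ) (by
          apply hc.mono
          rintro z ⟨-, hz⟩
          simp only [mem_preimage] at hz
          rw [uIcc_of_le hT.le] at hz
          exact hz.1) (by
          apply hd.mono
          rintro z ⟨-, hz⟩
          simp only [mem_preimage] at hz
          have : min (0 : ℝ) T = 0 := min_eq_left hT.le
          rw [this] at hz
          exact hz.1)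
      simp only [Complex.ofReal_zero, zero_mul, add_zero, smul_eq_mul] at hrect
      have hb' : ∀ z ∈ Hc, T ≤ ‖z‖ → ‖h z‖ ≤ C / (1 + T) ^ 2 := by
        intro z hz hT2
        refine (hb z hz).trans ?_
        gcongr
      have n1 : ‖∫ x in (-T)..T, h (x + T * I)‖ ≤ C / (1 + T) ^ 2 * |T - -T| := by
        apply intervalIntegral.norm_integral_le_of_norm_le_const
        intro x _
        apply hb'
        · simp [Hc, hT.le]
        · calc T = |((x : ℂ) + T * I).im| := by simp [abs_of_pos hT]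
            _ ≤ _ := Complex.abs_im_le_norm _
      have n2 : ‖∫ y in (0 : ℝ)..T, h (T + y * I)‖ ≤ C / (1 + T) ^ 2 * |T - 0| := by
        apply intervalIntegral.norm_integral_le_of_norm_le_const
        intro y hy
        rw [uIoc_of_le hT.le] at hy
        apply hb'
        · simp [Hc, hy.1.le]
        · calc T = |((T : ℂ) + y * I).re| := by simp [abs_of_pos hT]
            _ ≤ _ := Complex.abs_re_le_norm _
      have n3 : ‖∫ y in (0 : ℝ)..T, h ((-T : ℝ) + y * I)‖ ≤ C / (1 + T) ^ 2 * |T - 0| := by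
        apply intervalIntegral.norm_integral_le_of_norm_le_const
        intro y hy
        rw [uIoc_of_le hT.le] at hy
        apply hb'
        · simp [Hc, hy.1.le]
        · calc T = |(((-T : ℝ) : ℂ) + y * I).re| := by simp [abs_of_pos hT]
            _ ≤ _ := Complex.abs_re_le_norm _
      have e : ∫ t in (-T)..T, h t = (∫ x in (-T)..T, h (x + T * I)) -
          I * (∫ y in (0 : ℝ)..T, h (T + y * I)) + I * ∫ y in (0 : ℝ)..T, h ((-T : ℝ) + y * I) := by
        linear_combination hrect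
      rw [e]
      have t1 : |T - -T| = 2 * T := by rw [abs_of_nonneg (by linarith)]; ring
      have t2 : |T - 0| = T := by rw [abs_of_nonneg (by linarith)]; ring
      rw [t1] at n1
      rw [t2] at n2 n3
      refine (norm_add_le _ _).trans ?_
      rw [norm_mul, norm_I, one_mul]
      refine add_le_add ((norm_sub_le _ _).trans ?_) (n3.trans (le_of_eq (by ring)))
      rw [norm_mul, norm_I, one_mul]
      exact add_le_add (n1.trans (le_of_eq (by ring))) (n2.trans (le_of_eq (by ring)))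
    · have := ((tend_aux C 2).add (tend_aux C 1)).add (tend_aux C 1)
      simpa using this
  exact tendsto_nhds_unique hlim hzero

theorem den_ne {t : ℂ} {τ : ℂ} (ht : t.im ≤ 0) (hτ : 0 < τ.im) : t - τ ≠ 0 := by
  intro h
  have := congrArg Complex.im h
  simp at this
  linarith

theorem addI_ne {z : ℂ} (hz : 0 ≤ z.im) : z + I ≠ 0 := by
  intro h
  have := congrArg Complex.im h
  simp at this
  linarith

theorem add_ne {z τ : ℂ} (hz : 0 ≤ z.im) (hτ : 0 < τ.im) : z + τ ≠ 0 := by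
  intro h
  have := congrArg Complex.im h
  simp at this
  linarith

/-- lower bound for `z + τ` on the closed half plane -/
theorem low_add {τ : ℂ} (hτ : 0 < τ.im) : ∃ c : ℝ, 0 < c ∧ ∀ z ∈ Hc, c * (1 + ‖z‖) ≤ ‖z + τ‖ := by
  refine ⟨(1 + (1 + ‖τ‖) / τ.im)⁻¹, by positivity, fun z hz => ?_⟩
  rw [inv_mul_le_iff₀ (by positivity)]
  have h1 : τ.im ≤ ‖z + τ‖ := by
    have : τ.im ≤ (z + τ).im := by
      simp only [Complex.add_im]
      have : 0 ≤ z.im := hz
      linarith
    exact this.trans ((le_abs_self _).trans (Complex.abs_im_le_norm _))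
  have h2 : ‖z‖ ≤ ‖z + τ‖ + ‖τ‖ := by
    have : z = z + τ - τ := by ring
    calc ‖z‖ = ‖z + τ - τ‖ := by rw [← this]
      _ ≤ _ := norm_sub_le _ _
  have h3 : 1 + ‖τ‖ ≤ (1 + ‖τ‖) / τ.im * ‖z + τ‖ := by
    rw [div_mul_eq_mul_div, le_div_iff₀ hτ]
    have : 0 ≤ 1 + ‖τ‖ := by positivity
    nlinarith
  nlinarith

/-- lower bound for `t - τ`, uniform for `τ` in a small disc -/
theorem low_sub {τ₀ : ℂ} (hτ : 0 < τ₀.im) : ∃ c : ℝ, 0 < c ∧ ∀ τ ∈ ball τ₀ (τ₀.im / 2),
    0 < τ.im ∧ ∀ t : ℝ, c * (1 + |t|) ≤ ‖(t : ℂ) - τ‖ := by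
  refine ⟨(1 + (1 + ‖τ₀‖ + τ₀.im / 2) / (τ₀.im / 2))⁻¹, by positivity, fun τ hτ1 => ?_⟩
  rw [mem_ball, dist_eq_norm] at hτ1
  have h0 : τ₀.im / 2 < τ.im := by
    have h1 : |(τ - τ₀).im| ≤ ‖τ - τ₀‖ := Complex.abs_im_le_norm _
    rw [Complex.sub_im] at h1
    have := (abs_le.1 (h1.trans hτ1.le)).1
    have h2 := (abs_lt.1 (lt_of_le_of_lt h1 hτ1)).1
    linarith
  refine ⟨by linarith, fun t => ?_⟩
  rw [inv_mul_le_iff₀ (by positivity)]
  have h1 : τ₀.im / 2 ≤ ‖(t : ℂ) - τ‖ := by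
    have : τ.im = |((t : ℂ) - τ).im| := by
      simp only [Complex.sub_im, Complex.ofReal_im, zero_sub, abs_neg]
      rw [abs_of_pos (by linarith)]
    calc τ₀.im / 2 ≤ τ.im := h0.le
      _ = |((t : ℂ) - τ).im| := this
      _ ≤ _ := Complex.abs_im_le_norm _
  have h2 : |t| ≤ ‖(t : ℂ) - τ‖ + (‖τ₀‖ + τ₀.im / 2) := by
    have e : (t : ℂ) = (t - τ) + (τ - τ₀) + τ₀ := by ring
    calc |t| = ‖(t : ℂ)‖ := by rw [Complex.norm_real, Real.norm_eq_abs]
      _ = ‖(t - τ) + (τ - τ₀) + τ₀‖ := by rw [← e]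
      _ ≤ ‖(t - τ) + (τ - τ₀)‖ + ‖τ₀‖ := norm_add_le _ _
      _ ≤ ‖(t : ℂ) - τ‖ + ‖τ - τ₀‖ + ‖τ₀‖ := by gcongr; exact norm_add_le _ _
      _ ≤ _ := by linarith
  have h3 : 1 + ‖τ₀‖ + τ₀.im / 2 ≤ (1 + ‖τ₀‖ + τ₀.im / 2) / (τ₀.im / 2) * ‖(t : ℂ) - τ‖ := by
    rw [div_mul_eq_mul_div, le_div_iff₀ (by positivity)]
    have : 0 ≤ 1 + ‖τ₀‖ + τ₀.im / 2 := by positivity
    nlinarith
  nlinarith

theorem int_i : ∫ t : ℝ, (2 * I) / (((t : ℂ) + I) * (t - I)) = 2 * Real.pi * I := by
  have e : ∀ t : ℝ, (2 * I) / (((t : ℂ) + I) * (t - I)) = (2 * I) * (((1 + t ^ 2)⁻¹ : ℝ) : ℂ) := by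
    intro t
    have : ((t : ℂ) + I) * (t - I) = 1 + (t : ℂ) ^ 2 := by
      ring_nf
      rw [Complex.I_sq]
      ring
    rw [this]
    push_cast
    rw [div_eq_mul_inv]
  simp only [e]
  rw [integral_const_mul, integral_complex_ofReal, integral_univ_inv_one_add_sq]
  ring

/-- the basic residue -/
theorem int_res {τ : ℂ} (hτ : 0 < τ.im) :
    ∫ t : ℝ, (τ + I) / (((t : ℂ) + I) * (t - τ)) = 2 * Real.pi * I := by
  -- difference with the case `τ = i`
  obtain ⟨c, hc, hc2⟩ := low_add hτ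
  obtain ⟨c', hc', hc2'⟩ := low_add (τ := I) (by simp)
  have hV : ∫ t : ℝ, (τ - I) / (((t : ℂ) + τ) * (t + I)) = 0 := by
    apply hp_zero (h := fun z => (τ - I) / ((z + τ) * (z + I))) (C := ‖τ - I‖ / (c * c'))
    · apply ContinuousOn.div continuousOn_const (by fun_prop)
      intro z hz
      exact mul_ne_zero (add_ne hz hτ) (addI_ne hz)
    · apply DifferentiableOn.div (by fun_prop) (by fun_prop)
      intro z hz
      exact mul_ne_zero (add_ne (Ho_sub hz) hτ) (addI_ne (Ho_sub hz))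
    · intro z hz
      rw [norm_div, norm_mul]
      have h1 := hc2 z hz
      have h2 := hc2' z hz
      rw [div_div]
      apply div_le_div_of_nonneg_left (norm_nonneg _) (by positivity)
      calc c * c' * (1 + ‖z‖) ^ 2 = (c * (1 + ‖z‖)) * (c' * (1 + ‖z‖)) := by ring
        _ ≤ _ := by gcongr
  have hV2 : ∫ t : ℝ, (τ - I) / (((t : ℂ) - τ) * (t - I)) = 0 := by
    rw [← hV, ← integral_neg_eq_self (fun t : ℝ => (τ - I) / (((t : ℂ) + τ) * (t + I)))]
    congr 1
    funext t
    have : ((t : ℂ) - τ) * (t - I) = (((-t : ℝ) : ℂ) + τ) * (((-t : ℝ) : ℂ) + I) := by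
      push_cast; ring
    rw [this]
  have hint : ∀ σ : ℂ, 0 < σ.im → ∀ σ' : ℂ, 0 < σ'.im ∨ σ' = -I → ∀ k : ℂ,
      Integrable fun t : ℝ => k / (((t : ℂ) - σ') * (t - σ)) := by
    intro σ hσ σ' hσ' k
    obtain ⟨b, hb, hb2⟩ := low_sub hσ
    have hb3 : ∀ t : ℝ, b * (1 + |t|) ≤ ‖(t : ℂ) - σ‖ :=
      (hb2 σ (mem_ball_self (by positivity))).2
    obtain ⟨b', hb', hb3'⟩ : ∃ b', 0 < b' ∧ ∀ t : ℝ, b' * (1 + |t|) ≤ ‖(t : ℂ) - σ'‖ := by
      rcases hσ' with h | h
      · obtain ⟨b, hb, hb2⟩ := low_sub h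
        exact ⟨b, hb, (hb2 σ' (mem_ball_self (by positivity))).2⟩
      · refine ⟨c', hc', fun t => ?_⟩
        have := hc2' t (by simp [Hc])
        rw [Complex.norm_real, Real.norm_eq_abs] at this
        rw [h, sub_neg_eq_add]
        exact this
    have hne : ∀ t : ℝ, ((t : ℂ) - σ') * (t - σ) ≠ 0 := by
      intro t
      apply mul_ne_zero
      · apply norm_pos_iff.1
        exact lt_of_lt_of_le (by positivity) (hb3' t)
      · apply norm_pos_iff.1
        exact lt_of_lt_of_le (by positivity) (hb3 t)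
    apply integrable_dec (C := ‖k‖ / (b' * b))
    · exact continuous_const.div (by fun_prop) hne
    · intro t
      rw [norm_div, norm_mul, div_div]
      apply div_le_div_of_nonneg_left (norm_nonneg _) (by positivity)
      calc b' * b * (1 + |t|) ^ 2 = (b' * (1 + |t|)) * (b * (1 + |t|)) := by ring
        _ ≤ _ := mul_le_mul (hb3' t) (hb3 t) (by positivity) (norm_nonneg _)
  have e : ∀ t : ℝ, (τ + I) / (((t : ℂ) + I) * (t - τ)) =
      (2 * I) / (((t : ℂ) + I) * (t - I)) + (τ - I) / (((t : ℂ) - τ) * (t - I)) := by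
    intro t
    have h1 : (t : ℂ) + I ≠ 0 := addI_ne (by simp)
    have h2 : (t : ℂ) - τ ≠ 0 := den_ne (by simp) hτ
    have h3 : (t : ℂ) - I ≠ 0 := den_ne (by simp) (by simp)
    field_simp
    ring
  simp only [e]
  rw [integral_add, int_i, hV2, add_zero]
  · have := hint I (by simp) (-I) (Or.inr rfl) (2 * I)
    simpa [sub_neg_eq_add] using this
  · have := hint I (by simp) τ (Or.inl hτ) (τ - I)
    exact this

/-- **Cauchy formula for the half plane.** -/
theorem hp_cauchy {h : ℂ → ℂ} (hc : ContinuousOn h Hc) (hd : DifferentiableOn ℂ h Ho) {C : ℝ}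
    (hb : ∀ z ∈ Hc, ‖h z‖ ≤ C / (1 + ‖z‖)) {τ : ℂ} (hτ : 0 < τ.im) :
    (Integrable fun t : ℝ => h t / (t - τ)) ∧ ∫ t : ℝ, h t / (t - τ) = 2 * Real.pi * I * h τ := by
  have hC : 0 ≤ C := by
    have := (norm_nonneg _).trans (hb 0 (by simp [Hc]))
    simpa using this
  obtain ⟨c', hc', hc2'⟩ := low_add (τ := I) (by simp)
  obtain ⟨b, hb0, hb2⟩ := low_sub hτ
  have hb3 : ∀ t : ℝ, b * (1 + |t|) ≤ ‖(t : ℂ) - τ‖ :=
    (hb2 τ (mem_ball_self (by positivity))).2
  have hne : ∀ t : ℝ, (t : ℂ) - τ ≠ 0 := fun t => den_ne (by simp) hτ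
  have hct : Continuous fun t : ℝ => h t :=
    hc.comp_continuous Complex.continuous_ofReal fun t => by simp [Hc]
  have hint : Integrable fun t : ℝ => h t / (t - τ) := by
    apply integrable_dec (C := C / b)
    · exact hct.div (by fun_prop) hne
    · intro t
      rw [norm_div]
      have h1 := hb t (by simp [Hc])
      rw [Complex.norm_real, Real.norm_eq_abs] at h1
      calc ‖h t‖ / ‖(t : ℂ) - τ‖ ≤ (C / (1 + |t|)) / (b * (1 + |t|)) :=
            div_le_div₀ (by positivity) h1 (by positivity) (hb3 t)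
        _ = C / b / (1 + |t|) ^ 2 := by field_simp
  refine ⟨hint, ?_⟩
  set e : ℂ → ℂ := fun z => (τ + I) / (z + I) with he
  set g : ℂ → ℂ := fun z => h z - h τ * e z with hg
  have hτc : τ ∈ Hc := le_of_lt hτ
  have hgτ : g τ = 0 := by
    simp only [hg, he]
    rw [div_self (addI_ne hτ.le)]
    ring
  have hec : ContinuousOn e Hc := continuousOn_const.div (by fun_prop) fun z hz => addI_ne hz
  have hed : DifferentiableOn ℂ e Ho :=
    DifferentiableOn.div (by fun_prop) (by fun_prop) fun z hz => addI_ne (Ho_sub hz)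
  have hgc : ContinuousOn g Hc := hc.sub (continuousOn_const.mul hec)
  have hgd : DifferentiableOn ℂ g Ho := hd.sub (hed.const_mul _)
  have hnhds : Ho ∈ 𝓝 τ := isOpen_Ho.mem_nhds hτ
  have hqd : DifferentiableOn ℂ (dslope g τ) Ho := (Complex.differentiableOn_dslope hnhds).2 hgd
  have hqc : ContinuousOn (dslope g τ) Hc :=
    (continuousOn_dslope (mem_of_superset hnhds Ho_sub)).2
      ⟨hgc, hgd.differentiableAt hnhds⟩
  -- bound of g
  set M : ℝ := C + ‖h τ‖ * (‖τ + I‖ / c') with hM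
  have hM0 : 0 ≤ M := by positivity
  have hgb : ∀ z ∈ Hc, ‖g z‖ ≤ M / (1 + ‖z‖) := by
    intro z hz
    have h1 := hc2' z hz
    calc ‖g z‖ ≤ ‖h z‖ + ‖h τ * e z‖ := norm_sub_le _ _
      _ ≤ C / (1 + ‖z‖) + ‖h τ‖ * (‖τ + I‖ / (c' * (1 + ‖z‖))) := by
        gcongr
        · exact hb z hz
        · rw [norm_mul]
          simp only [he, norm_div]
          gcongr
      _ = M / (1 + ‖z‖) := by rw [hM]; field_simp
  obtain ⟨B, hB⟩ := ((isCompact_closedBall τ 1).inter_left isClosed_Hc).exists_bound_of_continuousOn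
    (hqc.mono inter_subset_left)
  have hq0 : ∫ t : ℝ, dslope g τ t = 0 := by
    apply hp_zero hqc hqd (C := max (M * (2 + ‖τ‖)) (|B| * (2 + ‖τ‖) ^ 2))
    intro z hz
    by_cases hz1 : ‖z - τ‖ ≤ 1
    · have h1 := hB z ⟨hz, by rwa [mem_closedBall, dist_eq_norm]⟩
      rw [le_div_iff₀ (by positivity)]
      refine le_trans ?_ (le_max_right _ _)
      have h2 : 1 + ‖z‖ ≤ 2 + ‖τ‖ := by
        have : ‖z‖ ≤ ‖z - τ‖ + ‖τ‖ := by
          have e : z = z - τ + τ := by ring
          calc ‖z‖ = ‖z - τ + τ‖ := by rw [← e]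
            _ ≤ _ := norm_add_le _ _
        linarith
      have h3 : ‖dslope g τ z‖ ≤ |B| := h1.trans (le_abs_self B)
      gcongr
    · push Not at hz1
      have hzτ : z ≠ τ := by
        intro h
        rw [h, sub_self, norm_zero] at hz1
        linarith
      rw [dslope_of_ne _ hzτ, slope_def_field, hgτ, sub_zero, norm_div]
      rw [div_le_div_iff₀ (by linarith) (by positivity)]
      refine le_trans ?_ (mul_le_mul_of_nonneg_right (le_max_left _ _) (by linarith))
      have h1 := hgb z hz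
      rw [le_div_iff₀ (by positivity)] at h1
      have h2 : 1 + ‖z‖ ≤ (2 + ‖τ‖) * ‖z - τ‖ := by
        have : ‖z‖ ≤ ‖z - τ‖ + ‖τ‖ := by
          have e : z = z - τ + τ := by ring
          calc ‖z‖ = ‖z - τ + τ‖ := by rw [← e]
            _ ≤ _ := norm_add_le _ _
        nlinarith [norm_nonneg τ]
      calc ‖g z‖ * (1 + ‖z‖) ^ 2 = (‖g z‖ * (1 + ‖z‖)) * (1 + ‖z‖) := by ring
        _ ≤ M * ((2 + ‖τ‖) * ‖z - τ‖) := by gcongr
        _ = M * (2 + ‖τ‖) * ‖z - τ‖ := by ring
  have e2 : ∀ t : ℝ, h t / (t - τ) = dslope g τ t + h τ * ((τ + I) / (((t : ℂ) + I) * (t - τ))) := by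
    intro t
    have htτ : (t : ℂ) ≠ τ := fun h => hne t (by rw [h, sub_self])
    rw [dslope_of_ne _ htτ, slope_def_field, hgτ, sub_zero]
    simp only [hg, he]
    have h1 : (t : ℂ) + I ≠ 0 := addI_ne (by simp)
    have h2 := hne t
    field_simp
    ring
  have hres_int : Integrable fun t : ℝ => h τ * ((τ + I) / (((t : ℂ) + I) * (t - τ))) := by
    apply Integrable.const_mul
    apply integrable_dec (C := ‖τ + I‖ / (c' * b))
    · exact continuous_const.div (by fun_prop) fun t => mul_ne_zero (addI_ne (by simp)) (hne t)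
    · intro t
      rw [norm_div, norm_mul, div_div]
      apply div_le_div_of_nonneg_left (norm_nonneg _) (by positivity)
      have h1 := hc2' t (by simp [Hc])
      rw [Complex.norm_real, Real.norm_eq_abs] at h1
      calc c' * b * (1 + |t|) ^ 2 = (c' * (1 + |t|)) * (b * (1 + |t|)) := by ring
        _ ≤ _ := mul_le_mul h1 (hb3 t) (by positivity) (norm_nonneg _)
  have hq_int : Integrable fun t : ℝ => dslope g τ t := by
    have := hint.sub hres_int
    refine this.congr (Eventually.of_forall fun t => ?_)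
    simp only [Pi.sub_apply, e2 t]
    ring
  simp only [e2]
  rw [integral_add hq_int hres_int, hq0, integral_const_mul, int_res hτ]
  ring

/-- the formula for the derivative -/
theorem hp_cauchy' {h : ℂ → ℂ} (hc : ContinuousOn h Hc) (hd : DifferentiableOn ℂ h Ho) {C : ℝ}
    (hb : ∀ z ∈ Hc, ‖h z‖ ≤ C / (1 + ‖z‖)) {τ : ℂ} (hτ : 0 < τ.im) :
    (Integrable fun t : ℝ => h t / (t - τ) ^ 2) ∧
    ∫ t : ℝ, h t / (t - τ) ^ 2 = 2 * Real.pi * I * deriv h τ := by
  have hC : 0 ≤ C := by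
    have := (norm_nonneg _).trans (hb 0 (by simp [Hc]))
    simpa using this
  obtain ⟨b, hb0, hb2⟩ := low_sub hτ
  have hct : Continuous fun t : ℝ => h t :=
    hc.comp_continuous Complex.continuous_ofReal fun t => by simp [Hc]
  have hbt : ∀ t : ℝ, ‖h t‖ ≤ C := by
    intro t
    refine (hb t (by simp [Hc])).trans ?_
    rw [div_le_iff₀ (by positivity)]
    nlinarith [norm_nonneg (t : ℂ)]
  have key := hasDerivAt_integral_of_dominated_loc_of_deriv_le (𝕜 := ℂ) (μ := (volume : Measure ℝ))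
    (F := fun σ (t : ℝ) => h t / (t - σ)) (F' := fun σ (t : ℝ) => h t / (t - σ) ^ 2) (x₀ := τ)
    (s := ball τ (τ.im / 2)) (bound := fun t : ℝ => (C / b ^ 2) * (2 * (1 + t ^ 2)⁻¹))
    (ball_mem_nhds τ (by positivity))
    (by
      filter_upwards [ball_mem_nhds τ (by positivity : 0 < τ.im / 2)] with σ hσ
      exact (hct.div (by fun_prop) fun t => den_ne (by simp) (hb2 σ hσ).1).aestronglyMeasurable)
    (hp_cauchy hc hd hb hτ).1
    ((hct.div (by fun_prop) fun t => pow_ne_zero 2 (den_ne (by simp) hτ)).aestronglyMeasurable)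
    (by
      refine Eventually.of_forall fun t σ hσ => ?_
      rw [norm_div, norm_pow]
      have h1 := (hb2 σ hσ).2 t
      have h3 : (b * (1 + |t|)) ^ 2 ≤ ‖(t : ℂ) - σ‖ ^ 2 := by gcongr
      calc ‖h t‖ / ‖(t : ℂ) - σ‖ ^ 2 ≤ C / (b * (1 + |t|)) ^ 2 :=
            div_le_div₀ hC (hbt t) (by positivity) h3
        _ = (C / b ^ 2) * ((1 + |t|) ^ 2)⁻¹ := by field_simp
        _ ≤ (C / b ^ 2) * (2 * (1 + t ^ 2)⁻¹) := by
          apply mul_le_mul_of_nonneg_left _ (by positivity)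
          rw [← div_eq_mul_inv, le_div_iff₀ (by positivity), inv_mul_le_iff₀ (by positivity)]
          have : |t| ^ 2 = t ^ 2 := sq_abs t
          nlinarith [abs_nonneg t])
    ((integrable_inv_one_add_sq.const_mul 2).const_mul _)
    (by
      refine Eventually.of_forall fun t σ hσ => ?_
      have h1 : (t : ℂ) - σ ≠ 0 := den_ne (by simp) (hb2 σ hσ).1
      have h2 : HasDerivAt (fun σ : ℂ => (t : ℂ) - σ) (-1) σ := by
        simpa using (hasDerivAt_id σ).const_sub (t : ℂ)
      have h3 : HasDerivAt (fun σ => h t / ((t : ℂ) - σ))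
          ((0 * ((t : ℂ) - σ) - h t * -1) / ((t : ℂ) - σ) ^ 2) σ :=
        (hasDerivAt_const σ (h t)).div h2 h1
      have e : h t / ((t : ℂ) - σ) ^ 2 = (0 * ((t : ℂ) - σ) - h t * -1) / ((t : ℂ) - σ) ^ 2 := by
        ring
      rw [e]
      exact h3)
  refine ⟨key.1, ?_⟩
  have h1 : HasDerivAt (fun σ => ∫ t : ℝ, h t / (t - σ)) (2 * Real.pi * I * deriv h τ) τ := by
    have h2 : HasDerivAt h (deriv h τ) τ :=
      (hd.differentiableAt (isOpen_Ho.mem_nhds hτ)).hasDerivAt
    have h3 := h2.const_mul (2 * Real.pi * I)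
    refine h3.congr_of_eventuallyEq ?_
    filter_upwards [isOpen_Ho.mem_nhds hτ] with σ hσ
    exact (hp_cauchy hc hd hb hσ).2
  exact key.2.unique h1

end Pool.Agent.MPd01a95.BU
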