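import Pool.Agent.Lib.MP_d01a95_gt_P.BU.WD
import Pool.Agent.Lib.MP_d01a95_gt_P.BU.HP
import Pool.Agent.Lib.MP_d01a95_gt_K.KDefs

/-!
# MP_d01a95_gt, m = 2, part (1), block L: the weak Burgers equation in the half plane (helper72)
-/

set_option autoImplicit false
set_option linter.all false

open MeasureTheory Filter Topology Set Metric Complex
open scoped ContDiff

namespace Pool.Agent.MPd01a95.BU

open KT (dbm dtm)

/-- product test functions -/
theorem prod_fderiv {φ : ℂ → ℂ} {ψ : ℝ → ℂ} (hφ : ContDiff ℝ 1 φ) (hψ : ContDiff ℝ 1 ψ)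
    (x : ℂ × ℝ) (v : ℂ × ℝ) : fderiv ℝ (fun x : ℂ × ℝ => φ x.1 * ψ x.2) x v =
      fderiv ℝ φ x.1 v.1 * ψ x.2 + φ x.1 * (deriv ψ x.2 * v.2) := by
  have h1 : HasFDerivAt (fun x : ℂ × ℝ => φ x.1) ((fderiv ℝ φ x.1).comp
      (ContinuousLinearMap.fst ℝ ℂ ℝ)) x :=
    ((hφ.differentiable one_ne_zero) x.1).hasFDerivAt.comp x hasFDerivAt_fst
  have h2 : HasFDerivAt (fun x : ℂ × ℝ => ψ x.2) ((fderiv ℝ ψ x.2).comp
      (ContinuousLinearMap.snd ℝ ℂ ℝ)) x :=
    ((hψ.differentiable one_ne_zero) x.2).hasFDerivAt.comp x hasFDerivAt_snd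
  have h3 := h1.mul h2
  have h4 : fderiv ℝ (fun x : ℂ × ℝ => φ x.1 * ψ x.2) x = _ := h3.fderiv
  rw [h4]
  have h5 : fderiv ℝ ψ x.2 v.2 = deriv ψ x.2 * v.2 := by
    have : v.2 = v.2 • (1 : ℝ) := by simp
    rw [this, map_smul, fderiv_apply_one_eq_deriv]
    simp [mul_comm]
  simp only [ContinuousLinearMap.add_apply, ContinuousLinearMap.smul_apply,
    ContinuousLinearMap.coe_comp', Function.comp_apply, ContinuousLinearMap.coe_fst',
    ContinuousLinearMap.coe_snd', smul_eq_mul, h5]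
  ring

theorem dbm_prod {φ : ℂ → ℂ} {ψ : ℝ → ℂ} (hφ : ContDiff ℝ 1 φ) (hψ : ContDiff ℝ 1 ψ)
    (x : ℂ × ℝ) : dbm (fun x : ℂ × ℝ => φ x.1 * ψ x.2) x = dbar φ x.1 * ψ x.2 := by
  simp only [dbm, dbar, prod_fderiv hφ hψ]
  push_cast
  ring

theorem dtm_prod {φ : ℂ → ℂ} {ψ : ℝ → ℂ} (hφ : ContDiff ℝ 1 φ) (hψ : ContDiff ℝ 1 ψ)
    (x : ℂ × ℝ) : dtm (fun x : ℂ × ℝ => φ x.1 * ψ x.2) x = φ x.1 * deriv ψ x.2 := by
  simp only [dtm, prod_fderiv hφ hψ, map_zero]
  push_cast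
  ring

section kernel

variable (τ : ℂ)

/-- the damping factor -/
noncomputable def ef (z : ℂ) : ℂ := (τ + I) / (z + I)

/-- the kernel -/
noncomputable def kf (t : ℝ) : ℂ := ef τ t ^ 4 / ((t : ℂ) - τ)

/-- its derivative -/
noncomputable def kf' (t : ℝ) : ℂ :=
  - (4 * ef τ t ^ 5 / (τ + I)) / ((t : ℂ) - τ) - ef τ t ^ 4 / ((t : ℂ) - τ) ^ 2

variable {τ} (hτ : 0 < τ.im)

include hτ

theorem ef_self : ef τ τ = 1 := div_self (addI_ne hτ.le)

theorem ef_deriv {z : ℂ} (hz : z ∈ Hc) : HasDerivAt (ef τ) (- (ef τ z) ^ 2 / (τ + I)) z := by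
  have h0 : z + I ≠ 0 := addI_ne hz
  have h1 : τ + I ≠ 0 := addI_ne hτ.le
  have h2 : HasDerivAt (fun z : ℂ => z + I) 1 z := (hasDerivAt_id z).add_const I
  have h3 : HasDerivAt (fun z : ℂ => (τ + I) / (z + I))
      ((0 * (z + I) - (τ + I) * 1) / (z + I) ^ 2) z := (hasDerivAt_const z (τ + I)).div h2 h0
  have e : - (ef τ z) ^ 2 / (τ + I) = (0 * (z + I) - (τ + I) * 1) / (z + I) ^ 2 := by
    unfold ef
    field_simp
    ring
  rw [e]
  exact h3

theorem kf_deriv (t : ℝ) : HasDerivAt (kf τ) (kf' τ t) t := by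
  have ht : (t : ℂ) ∈ Hc := by simp [Hc]
  have h1 : HasDerivAt (fun t : ℝ => ef τ t) (- (ef τ t) ^ 2 / (τ + I)) t :=
    (ef_deriv hτ ht).comp_ofReal
  have h2 : HasDerivAt (fun t : ℝ => ef τ t ^ 4)
      (((4 : ℕ) : ℂ) * ef τ t ^ 3 * (- (ef τ t) ^ 2 / (τ + I))) t := h1.pow 4
  have h3 : HasDerivAt (fun t : ℝ => (t : ℂ) - τ) 1 t := by
    simpa using (hasDerivAt_id (t : ℂ)).comp_ofReal.sub_const τ
  have h0 : (t : ℂ) - τ ≠ 0 := den_ne (by simp) hτ
  have h4 : HasDerivAt (fun t : ℝ => ef τ t ^ 4 / ((t : ℂ) - τ)) _ t := h2.div h3 h0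
  have e : kf' τ t = (((4 : ℕ) : ℂ) * ef τ t ^ 3 * (- (ef τ t) ^ 2 / (τ + I)) * ((t : ℂ) - τ) -
      ef τ t ^ 4 * 1) / ((t : ℂ) - τ) ^ 2 := by
    have h5 : τ + I ≠ 0 := addI_ne hτ.le
    unfold kf'
    push_cast
    field_simp
  rw [e]
  exact h4

theorem ef_cont : ContinuousOn (ef τ) Hc :=
  continuousOn_const.div (by fun_prop) fun z hz => addI_ne hz

theorem ef_hol : DifferentiableOn ℂ (ef τ) Ho := fun z hz =>
  ((ef_deriv hτ (Ho_sub hz)).differentiableAt).differentiableWithinAt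

theorem ef_bd : ∃ C : ℝ, 0 < C ∧ ∀ z ∈ Hc, ‖ef τ z‖ ≤ C / (1 + ‖z‖) := by
  obtain ⟨c, hc, h⟩ := low_add (τ := I) (by simp)
  refine ⟨‖τ + I‖ / c, ?_, fun z hz => ?_⟩
  · have : 0 < ‖τ + I‖ := norm_pos_iff.2 (addI_ne hτ.le)
    positivity
  · unfold ef
    rw [norm_div, div_div]
    exact div_le_div_of_nonneg_left (norm_nonneg _) (by positivity) (h z hz)

theorem ef_cont_real : Continuous fun t : ℝ => ef τ t :=
  (ef_cont hτ).comp_continuous Complex.continuous_ofReal fun t => by simp [Hc]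

theorem kf_cont : Continuous (kf τ) :=
  ((ef_cont_real hτ).pow 4).div (by fun_prop) fun t => den_ne (by simp) hτ

theorem kf'_cont : Continuous (kf' τ) := by
  have h0 : ∀ t : ℝ, (t : ℂ) - τ ≠ 0 := fun t => den_ne (by simp) hτ
  have h1 := ef_cont_real hτ
  exact (((((continuous_const.mul (h1.pow 5)).div_const _).neg).div (by fun_prop) h0)).sub
    ((h1.pow 4).div (by fun_prop) fun t => pow_ne_zero 2 (h0 t))

theorem kf_contDiff : ContDiff ℝ 1 (kf τ) := by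
  rw [contDiff_one_iff_deriv]
  refine ⟨fun t => (kf_deriv hτ t).differentiableAt, ?_⟩
  have : deriv (kf τ) = kf' τ := funext fun t => (kf_deriv hτ t).deriv
  rw [this]
  exact kf'_cont hτ

theorem kf_bd : ∃ C : ℝ, 0 < C ∧ ∀ t : ℝ, ‖kf τ t‖ ≤ C / (1 + |t|) ^ 5 ∧
    ‖kf' τ t‖ ≤ C / (1 + |t|) ^ 5 := by
  obtain ⟨C, hC, h1⟩ := ef_bd hτ
  obtain ⟨b, hb, h2⟩ := low_sub hτ
  have h3 := (h2 τ (mem_ball_self (by positivity))).2
  have hn : 0 < ‖τ + I‖ := norm_pos_iff.2 (addI_ne hτ.le)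
  have hef : ∀ t : ℝ, ‖ef τ t‖ ≤ C / (1 + |t|) := fun t => by
    have := h1 t (by simp [Hc])
    rwa [Complex.norm_real, Real.norm_eq_abs] at this
  refine ⟨C ^ 4 / b + 4 * C ^ 5 / ‖τ + I‖ / b + C ^ 4 / b ^ 2, by positivity, fun t => ?_⟩
  have ht : (1 : ℝ) ≤ 1 + |t| := by linarith [abs_nonneg t]
  have p1 : 0 < 1 + |t| := by linarith
  have k1 : ‖kf τ t‖ ≤ C ^ 4 / b / (1 + |t|) ^ 5 := by
    unfold kf
    rw [norm_div, norm_pow]
    calc ‖ef τ t‖ ^ 4 / ‖(t : ℂ) - τ‖ ≤ (C / (1 + |t|)) ^ 4 / (b * (1 + |t|)) :=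
          div_le_div₀ (by positivity) (pow_le_pow_left₀ (norm_nonneg _) (hef t) 4) (by positivity)
            (h3 t)
      _ = C ^ 4 / b / (1 + |t|) ^ 5 := by field_simp
  have k2 : ‖kf' τ t‖ ≤ 4 * C ^ 5 / ‖τ + I‖ / b / (1 + |t|) ^ 5 + C ^ 4 / b ^ 2 / (1 + |t|) ^ 5 := by
    unfold kf'
    refine (norm_sub_le _ _).trans (add_le_add ?_ ?_)
    · rw [norm_div, norm_neg, norm_div, norm_mul, norm_pow]
      have e4 : ‖(4 : ℂ)‖ = 4 := by simp
      rw [e4]
      calc 4 * ‖ef τ t‖ ^ 5 / ‖τ + I‖ / ‖(t : ℂ) - τ‖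
          ≤ 4 * (C / (1 + |t|)) ^ 5 / ‖τ + I‖ / (b * (1 + |t|)) := by
            apply div_le_div₀ (by positivity) _ (by positivity) (h3 t)
            have := pow_le_pow_left₀ (norm_nonneg _) (hef t) 5
            gcongr
        _ = 4 * C ^ 5 / ‖τ + I‖ / b / (1 + |t|) ^ 5 / (1 + |t|) := by field_simp
        _ ≤ 4 * C ^ 5 / ‖τ + I‖ / b / (1 + |t|) ^ 5 := div_le_self (by positivity) ht
    · rw [norm_div, norm_pow, norm_pow]
      calc ‖ef τ t‖ ^ 4 / ‖(t : ℂ) - τ‖ ^ 2 ≤ (C / (1 + |t|)) ^ 4 / (b * (1 + |t|)) ^ 2 := by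
            apply div_le_div₀ (by positivity) (pow_le_pow_left₀ (norm_nonneg _) (hef t) 4)
              (by positivity)
            exact pow_le_pow_left₀ (by positivity) (h3 t) 2
        _ = C ^ 4 / b ^ 2 / (1 + |t|) ^ 5 / (1 + |t|) := by field_simp
        _ ≤ C ^ 4 / b ^ 2 / (1 + |t|) ^ 5 := div_le_self (by positivity) ht
  constructor
  · refine k1.trans (div_le_div_of_nonneg_right ?_ (by positivity))
    have : 0 ≤ 4 * C ^ 5 / ‖τ + I‖ / b + C ^ 4 / b ^ 2 := by positivity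
    linarith
  · refine k2.trans ?_
    rw [← add_div]
    refine div_le_div_of_nonneg_right ?_ (by positivity)
    have : 0 ≤ C ^ 4 / b := by positivity
    linarith

end kernel

/-- the cutoff functions -/
theorem cutoffs : ∃ (η : ℕ → ℝ → ℝ) (C : ℝ), 0 < C ∧ (∀ n, ContDiff ℝ 1 (η n)) ∧
    (∀ n, HasCompactSupport (η n)) ∧ (∀ n t, |η n t| ≤ 1) ∧ (∀ n t, |deriv (η n) t| ≤ C) ∧
    (∀ t, Tendsto (fun n => η n t) atTop (𝓝 1)) ∧
    (∀ t, Tendsto (fun n => deriv (η n) t) atTop (𝓝 0)) := by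
  let ρ : ContDiffBump (0 : ℝ) := ⟨1, 2, one_pos, one_lt_two⟩
  have hρ1 : ContDiff ℝ 1 (ρ : ℝ → ℝ) := ρ.contDiff
  have hd : Continuous (deriv (ρ : ℝ → ℝ)) := hρ1.continuous_deriv le_rfl
  have hdc : HasCompactSupport (deriv (ρ : ℝ → ℝ)) := ρ.hasCompactSupport.deriv
  obtain ⟨C, hC⟩ := hd.bounded_above_of_compact_support hdc
  let s : ℕ → ℝ := fun n => ((n : ℝ) + 1)⁻¹
  have hs0 : ∀ n, 0 < s n := fun n => by positivity
  have hs1 : ∀ n, s n ≤ 1 := fun n => by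
    apply inv_le_one_of_one_le₀
    have : (0 : ℝ) ≤ n := Nat.cast_nonneg n
    linarith
  have hslim : Tendsto s atTop (𝓝 0) := by
    have := tendsto_one_div_add_atTop_nhds_zero_nat (𝕜 := ℝ)
    refine this.congr fun n => ?_
    simp [s]
  have hder : ∀ n t, deriv (fun t => ρ (s n * t)) t = s n * deriv (ρ : ℝ → ℝ) (s n * t) := by
    intro n t
    have h1 : HasDerivAt (ρ : ℝ → ℝ) (deriv ρ (s n * t)) (s n * t) :=
      ((hρ1.differentiable one_ne_zero) _).hasDerivAt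
    have h2 : HasDerivAt (fun t : ℝ => s n * t) (s n) t := by
      simpa using (hasDerivAt_id t).const_mul (s n)
    have h3 := h1.comp t h2
    have h4 : deriv (fun t => ρ (s n * t)) t = _ := h3.deriv
    rw [h4]
    ring
  refine ⟨fun n t => ρ (s n * t), |C| + 1, by positivity, ?_, ?_, ?_, ?_, ?_, ?_⟩
  · intro n
    exact hρ1.comp (contDiff_const.mul contDiff_id)
  · intro n
    exact ρ.hasCompactSupport.comp_homeomorph (Homeomorph.mulLeft₀ (s n) (hs0 n).ne')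
  · intro n t
    rw [abs_of_nonneg ρ.nonneg]
    exact ρ.le_one
  · intro n t
    rw [hder, abs_mul, abs_of_pos (hs0 n)]
    have h1 := hC (s n * t)
    rw [Real.norm_eq_abs] at h1
    calc s n * |deriv ρ (s n * t)| ≤ 1 * |C| :=
          mul_le_mul (hs1 n) (h1.trans (le_abs_self C)) (abs_nonneg _) zero_le_one
      _ ≤ |C| + 1 := by linarith
  · intro t
    have h1 : ∀ᶠ n in atTop, |s n * t| < 1 := by
      have h2 : Tendsto (fun n => s n * t) atTop (𝓝 (0 * t)) := hslim.mul_const t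
      rw [zero_mul] at h2
      have h3 := h2.abs
      rw [abs_zero] at h3
      exact h3.eventually (gt_mem_nhds one_pos)
    refine tendsto_const_nhds.congr' ?_
    filter_upwards [h1] with n hn
    symm
    apply ρ.one_of_mem_closedBall
    rw [mem_closedBall, dist_zero_right, Real.norm_eq_abs]
    exact hn.le
  · intro t
    simp only [hder]
    apply squeeze_zero_norm (a := fun n => s n * |C|)
    · intro n
      rw [norm_mul, Real.norm_eq_abs, abs_of_pos (hs0 n)]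
      exact mul_le_mul_of_nonneg_left ((hC _).trans (le_abs_self C)) (hs0 n).le
    · have := hslim.mul_const |C|
      simpa using this

/-- **The weak Burgers equation in the half plane.** -/
theorem burgers_core {B : ℂ → ℂ → ℂ}
    (hc : ContinuousOn (fun p : ℂ × ℂ => B p.1 p.2) {p | 0 ≤ p.2.im})
    (hd : ∀ μ, DifferentiableOn ℂ (B μ) Ho)
    (hg : ∀ r : ℝ, ∃ C : ℝ, ∀ μ τ : ℂ, ‖μ‖ ≤ r → 0 ≤ τ.im → ‖B μ τ‖ ≤ C * (1 + ‖τ‖))
    (hw : ∀ φ : ℂ × ℝ → ℂ, ContDiff ℝ 1 φ → HasCompactSupport φ →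
      ∫ x : ℂ × ℝ, (B x.1 x.2 * dbm φ x + (B x.1 x.2) ^ 2 / 2 * dtm φ x) = 0)
    {τ : ℂ} (hτ : 0 < τ.im) {φ : ℂ → ℂ} (hφ : ContDiff ℝ 1 φ) (hφc : HasCompactSupport φ) :
    ∫ μ : ℂ, (B μ τ * dbar φ μ - φ μ * (B μ τ * deriv (B μ) τ)) = 0 := by
  obtain ⟨η, Cη, hCη, η1, η2, η3, η4, η5, η6⟩ := cutoffs
  obtain ⟨Ck, hCk, hk⟩ := kf_bd hτ
  obtain ⟨Ce, hCe, he⟩ := ef_bd hτ
  set K := tsupport φ with hK
  have hKc : IsCompact K := hφc
  obtain ⟨r, hr⟩ := hKc.isBounded.exists_norm_le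
  obtain ⟨CB, hCB⟩ := hg r
  have hCB' : ∀ μ ∈ K, ∀ τ ∈ Hc, ‖B μ τ‖ ≤ |CB| * (1 + ‖τ‖) := by
    intro μ hμ τ hτ
    refine (hCB μ τ (hr μ hμ) hτ).trans ?_
    exact mul_le_mul_of_nonneg_right (le_abs_self _) (by positivity)
  have hdφ : Continuous (dbar φ) := by
    have h1 : Continuous fun z => fderiv ℝ φ z := hφ.continuous_fderiv one_ne_zero
    exact continuous_const.mul ((h1.clm_apply continuous_const).add
      (continuous_const.mul (h1.clm_apply continuous_const)))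
  have hφ0 : ∀ z, z ∉ K → φ z = 0 := fun z hz => image_eq_zero_of_notMem_tsupport hz
  have hdφ0 : ∀ z, z ∉ K → dbar φ z = 0 := fun z hz => dbar_eq_zero hz
  obtain ⟨M1, hM1⟩ := hφ.continuous.bounded_above_of_compact_support hφc
  obtain ⟨M2, hM2⟩ := hdφ.bounded_above_of_compact_support
    (HasCompactSupport.intro hφc fun z hz => dbar_eq_zero hz)
  have hM1' : 0 ≤ M1 := (norm_nonneg _).trans (hM1 0)
  have hM2' : 0 ≤ M2 := (norm_nonneg _).trans (hM2 0)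
  -- continuity on the real boundary
  have hBr : Continuous fun x : ℂ × ℝ => B x.1 x.2 := by
    have h1 : Continuous fun x : ℂ × ℝ => ((x.1, (x.2 : ℂ)) : ℂ × ℂ) := by fun_prop
    exact hc.comp_continuous h1 fun x => by simp
  -- the test functions
  let ψ : ℕ → ℝ → ℂ := fun n t => kf τ t * (η n t : ℂ)
  have hη1 : ∀ n, ContDiff ℝ 1 fun t => (η n t : ℂ) := fun n =>
    Complex.ofRealCLM.contDiff.comp (η1 n)
  have hψ1 : ∀ n, ContDiff ℝ 1 (ψ n) := fun n => (kf_contDiff hτ).mul (hη1 n)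
  have hψd : ∀ n t, deriv (ψ n) t = kf' τ t * (η n t : ℂ) + kf τ t * ((deriv (η n) t : ℝ) : ℂ) := by
    intro n t
    have h1 : HasDerivAt (η n) (deriv (η n) t) t := (((η1 n).differentiable one_ne_zero) t).hasDerivAt
    have h2 : HasDerivAt (fun t => (η n t : ℂ)) ((deriv (η n) t : ℝ) : ℂ) t := h1.ofReal_comp
    exact ((kf_deriv hτ t).mul h2).deriv
  have hψc : ∀ n, HasCompactSupport (ψ n) := fun n => by
    apply HasCompactSupport.mul_left
    exact (η2 n).comp_left (g := fun x : ℝ => (x : ℂ)) (by simp)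
  have hzero : ∀ n, ∫ x : ℂ × ℝ, (B x.1 x.2 * (dbar φ x.1 * ψ n x.2) +
      (B x.1 x.2) ^ 2 / 2 * (φ x.1 * deriv (ψ n) x.2)) = 0 := by
    intro n
    have h1 := hw (fun x : ℂ × ℝ => φ x.1 * ψ n x.2) ?_ ?_
    · simp only [dbm_prod hφ (hψ1 n), dtm_prod hφ (hψ1 n)] at h1
      exact h1
    · exact (hφ.comp contDiff_fst).mul ((hψ1 n).comp contDiff_snd)
    · apply HasCompactSupport.intro (hφc.prod (hψc n))
      intro x hx
      simp only [mem_prod, not_and_or] at hx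
      rcases hx with h | h
      · rw [image_eq_zero_of_notMem_tsupport h, zero_mul]
      · rw [image_eq_zero_of_notMem_tsupport h, mul_zero]
  -- domination
  set D : ℝ := |CB| * M2 * Ck + |CB| ^ 2 * M1 * (Ck + Ck * Cη) with hD
  have hD0 : 0 ≤ D := by positivity
  have hdom : Integrable fun x : ℂ × ℝ => K.indicator (fun _ => (1 : ℝ)) x.1 *
      (D * (2 * (1 + x.2 ^ 2)⁻¹)) := by
    apply Integrable.mul_prod (f := K.indicator (fun _ => (1 : ℝ)))
      (g := fun t : ℝ => D * (2 * (1 + t ^ 2)⁻¹))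
    · exact (integrable_indicator_iff hKc.measurableSet).2
        (integrableOn_const (hKc.measure_lt_top.ne))
    · exact (integrable_inv_one_add_sq.const_mul 2).const_mul D
  have hb1 : ∀ (a b : ℂ) (x : ℂ × ℝ), ‖a‖ ≤ Ck / (1 + |x.2|) ^ 5 →
      ‖b‖ ≤ (Ck + Ck * Cη) / (1 + |x.2|) ^ 5 →
      ‖B x.1 x.2 * (dbar φ x.1 * a) + (B x.1 x.2) ^ 2 / 2 * (φ x.1 * b)‖ ≤
        K.indicator (fun _ => (1 : ℝ)) x.1 * (D * (2 * (1 + x.2 ^ 2)⁻¹)) := by
    intro a b x ha hb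
    by_cases hx : x.1 ∈ K
    · rw [indicator_of_mem hx, one_mul]
      have p1 : (1 : ℝ) ≤ 1 + |x.2| := by linarith [abs_nonneg x.2]
      have p0 : 0 < 1 + |x.2| := by linarith
      have hB := hCB' x.1 hx x.2 (by simp [Hc])
      rw [Complex.norm_real, Real.norm_eq_abs] at hB
      have t1 : ‖B x.1 x.2 * (dbar φ x.1 * a)‖ ≤ (|CB| * M2 * Ck) / (1 + |x.2|) ^ 2 := by
        rw [norm_mul, norm_mul]
        calc ‖B x.1 x.2‖ * (‖dbar φ x.1‖ * ‖a‖)
            ≤ (|CB| * (1 + |x.2|)) * (M2 * (Ck / (1 + |x.2|) ^ 5)) := by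
              have := hM2 x.1
              gcongr
          _ = (|CB| * M2 * Ck) / (1 + |x.2|) ^ 2 / (1 + |x.2|) ^ 2 := by field_simp
          _ ≤ (|CB| * M2 * Ck) / (1 + |x.2|) ^ 2 :=
            div_le_self (by positivity) (one_le_pow₀ p1)
      have t2 : ‖(B x.1 x.2) ^ 2 / 2 * (φ x.1 * b)‖ ≤
          (|CB| ^ 2 * M1 * (Ck + Ck * Cη)) / (1 + |x.2|) ^ 2 := by
        rw [norm_mul, norm_mul, norm_div, norm_pow]
        have e2 : ‖(2 : ℂ)‖ = 2 := by simp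
        rw [e2]
        calc ‖B x.1 x.2‖ ^ 2 / 2 * (‖φ x.1‖ * ‖b‖)
            ≤ (|CB| * (1 + |x.2|)) ^ 2 / 1 * (M1 * ((Ck + Ck * Cη) / (1 + |x.2|) ^ 5)) := by
              have := hM1 x.1
              gcongr
              norm_num
          _ = (|CB| ^ 2 * M1 * (Ck + Ck * Cη)) / (1 + |x.2|) ^ 2 / (1 + |x.2|) := by field_simp
          _ ≤ (|CB| ^ 2 * M1 * (Ck + Ck * Cη)) / (1 + |x.2|) ^ 2 :=
            div_le_self (by positivity) p1
      refine (norm_add_le _ _).trans ((add_le_add t1 t2).trans ?_)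
      rw [← add_div, ← hD, div_eq_mul_inv]
      apply mul_le_mul_of_nonneg_left _ hD0
      rw [← div_eq_mul_inv, le_div_iff₀ (by positivity), inv_mul_le_iff₀ (by positivity)]
      have : |x.2| ^ 2 = x.2 ^ 2 := sq_abs x.2
      nlinarith [abs_nonneg x.2]
    · rw [hφ0 _ hx, hdφ0 _ hx, indicator_of_notMem hx]
      simp
  have hkc := kf_cont hτ
  have hk'c := kf'_cont hτ
  have hmeas : ∀ (u v : ℝ → ℂ), Continuous u → Continuous v →
      Continuous fun x : ℂ × ℝ => (B x.1 x.2 * (dbar φ x.1 * u x.2) +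
        (B x.1 x.2) ^ 2 / 2 * (φ x.1 * v x.2)) := by
    intro u v hu hv
    have hφc' := hφ.continuous
    exact (hBr.mul ((hdφ.comp continuous_fst).mul (hu.comp continuous_snd))).add
      (((hBr.pow 2).div_const 2).mul ((hφc'.comp continuous_fst).mul (hv.comp continuous_snd)))
  have hlim : Tendsto (fun n => ∫ x : ℂ × ℝ, (B x.1 x.2 * (dbar φ x.1 * ψ n x.2) +
      (B x.1 x.2) ^ 2 / 2 * (φ x.1 * deriv (ψ n) x.2))) atTop
      (𝓝 (∫ x : ℂ × ℝ, (B x.1 x.2 * (dbar φ x.1 * kf τ x.2) +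
      (B x.1 x.2) ^ 2 / 2 * (φ x.1 * kf' τ x.2)))) := by
    apply tendsto_integral_of_dominated_convergence _ _ hdom
    · intro n
      refine Eventually.of_forall fun x => hb1 _ _ x ?_ ?_
      · have h1 := (hk x.2).1
        have h2 := η3 n x.2
        rw [norm_mul, Complex.norm_real, Real.norm_eq_abs]
        calc ‖kf τ x.2‖ * |η n x.2| ≤ Ck / (1 + |x.2|) ^ 5 * 1 := by gcongr
          _ = _ := mul_one _
      · rw [hψd]
        have h1 := (hk x.2).1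
        have h1' := (hk x.2).2
        have h2 := η3 n x.2
        have h3 := η4 n x.2
        refine (norm_add_le _ _).trans ?_
        rw [norm_mul, norm_mul, Complex.norm_real, Complex.norm_real, Real.norm_eq_abs,
          Real.norm_eq_abs]
        calc ‖kf' τ x.2‖ * |η n x.2| + ‖kf τ x.2‖ * |deriv (η n) x.2|
            ≤ Ck / (1 + |x.2|) ^ 5 * 1 + Ck / (1 + |x.2|) ^ 5 * Cη := by gcongr
          _ = _ := by ring
    · refine Eventually.of_forall fun x => ?_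
      have l1 : Tendsto (fun n => ψ n x.2) atTop (𝓝 (kf τ x.2)) := by
        have h1 : Tendsto (fun n => ((η n x.2 : ℝ) : ℂ)) atTop (𝓝 ((1 : ℝ) : ℂ)) :=
          (Complex.continuous_ofReal.tendsto 1).comp (η5 x.2)
        have h2 := (tendsto_const_nhds (x := kf τ x.2)).mul h1
        simpa using h2
      have l2 : Tendsto (fun n => deriv (ψ n) x.2) atTop (𝓝 (kf' τ x.2)) := by
        simp only [hψd]
        have h1 : Tendsto (fun n => ((η n x.2 : ℝ) : ℂ)) atTop (𝓝 ((1 : ℝ) : ℂ)) :=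
          (Complex.continuous_ofReal.tendsto 1).comp (η5 x.2)
        have h1' : Tendsto (fun n => ((deriv (η n) x.2 : ℝ) : ℂ)) atTop (𝓝 ((0 : ℝ) : ℂ)) :=
          (Complex.continuous_ofReal.tendsto 0).comp (η6 x.2)
        have h2 := ((tendsto_const_nhds (x := kf' τ x.2)).mul h1).add
          ((tendsto_const_nhds (x := kf τ x.2)).mul h1')
        simpa using h2
      exact ((l1.const_mul _).const_mul _).add ((l2.const_mul _).const_mul _)
    · intro n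
      exact (hmeas _ _ (hψ1 n).continuous ((hψ1 n).continuous_deriv le_rfl)).aestronglyMeasurable
  have hJ : ∫ x : ℂ × ℝ, (B x.1 x.2 * (dbar φ x.1 * kf τ x.2) +
      (B x.1 x.2) ^ 2 / 2 * (φ x.1 * kf' τ x.2)) = 0 := by
    simp only [hzero] at hlim
    exact (tendsto_nhds_unique hlim tendsto_const_nhds)
  have hint : Integrable fun x : ℂ × ℝ => (B x.1 x.2 * (dbar φ x.1 * kf τ x.2) +
      (B x.1 x.2) ^ 2 / 2 * (φ x.1 * kf' τ x.2)) := by
    apply hdom.mono' (hmeas _ _ hkc hk'c).aestronglyMeasurable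
    refine Eventually.of_forall fun x => hb1 _ _ x (hk x.2).1 ((hk x.2).2.trans ?_)
    gcongr
    have : 0 ≤ Ck * Cη := by positivity
    linarith
  have hJ2 : ∫ x : ℂ × ℝ, (B x.1 x.2 * (dbar φ x.1 * kf τ x.2) +
      (B x.1 x.2) ^ 2 / 2 * (φ x.1 * kf' τ x.2)) = ∫ μ : ℂ, ∫ t : ℝ,
        (B μ t * (dbar φ μ * kf τ t) + (B μ t) ^ 2 / 2 * (φ μ * kf' τ t)) :=
    integral_prod _ hint
  rw [hJ2] at hJ
  -- the inner integrals
  have hinner : ∀ μ : ℂ, ∫ t : ℝ, (B μ t * (dbar φ μ * kf τ t) +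
      (B μ t) ^ 2 / 2 * (φ μ * kf' τ t)) =
      (2 * Real.pi * I) * (B μ τ * dbar φ μ - φ μ * (B μ τ * deriv (B μ) τ)) := by
    intro μ
    by_cases hμ : μ ∈ K
    · have hBμ : ContinuousOn (B μ) Hc := by
        have h1 : Continuous fun z : ℂ => ((μ, z) : ℂ × ℂ) := by fun_prop
        exact hc.comp h1.continuousOn fun z hz => hz
      have hBd := hd μ
      have hBb : ∀ z ∈ Hc, ‖B μ z‖ ≤ |CB| * (1 + ‖z‖) := hCB' μ hμ
      have hec := ef_cont hτ
      have heh := ef_hol hτ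
      -- the three functions
      have c1 := hp_cauchy (h := fun z => B μ z * ef τ z ^ 4) (C := |CB| * Ce ^ 4)
        (hBμ.mul (hec.pow 4)) (hBd.mul (heh.pow 4)) (fun z hz => by
          rw [norm_mul, norm_pow]
          have p1 : (1 : ℝ) ≤ 1 + ‖z‖ := by linarith [norm_nonneg z]
          calc ‖B μ z‖ * ‖ef τ z‖ ^ 4 ≤ (|CB| * (1 + ‖z‖)) * (Ce / (1 + ‖z‖)) ^ 4 :=
                mul_le_mul (hBb z hz) (pow_le_pow_left₀ (norm_nonneg _) (he z hz) 4)
                  (by positivity) (by positivity)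
            _ = |CB| * Ce ^ 4 / (1 + ‖z‖) / (1 + ‖z‖) ^ 2 := by field_simp
            _ ≤ |CB| * Ce ^ 4 / (1 + ‖z‖) := div_le_self (by positivity) (one_le_pow₀ p1)) hτ
      have c2 := hp_cauchy' (h := fun z => (B μ z) ^ 2 / 2 * ef τ z ^ 4) (C := |CB| ^ 2 * Ce ^ 4)
        (((hBμ.pow 2).div_const 2).mul (hec.pow 4))
        (((hBd.pow 2).div_const 2).mul (heh.pow 4)) (fun z hz => by
          rw [norm_mul, norm_pow, norm_div, norm_pow]
          have e2 : ‖(2 : ℂ)‖ = 2 := by simp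
          rw [e2]
          have p1 : (1 : ℝ) ≤ 1 + ‖z‖ := by linarith [norm_nonneg z]
          calc ‖B μ z‖ ^ 2 / 2 * ‖ef τ z‖ ^ 4
              ≤ (|CB| * (1 + ‖z‖)) ^ 2 / 1 * (Ce / (1 + ‖z‖)) ^ 4 := by
                apply mul_le_mul _ (pow_le_pow_left₀ (norm_nonneg _) (he z hz) 4)
                  (by positivity) (by positivity)
                apply div_le_div₀ (by positivity)
                  (pow_le_pow_left₀ (norm_nonneg _) (hBb z hz) 2) one_pos (by norm_num)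
            _ = |CB| ^ 2 * Ce ^ 4 / (1 + ‖z‖) / (1 + ‖z‖) := by field_simp
            _ ≤ |CB| ^ 2 * Ce ^ 4 / (1 + ‖z‖) := div_le_self (by positivity) p1) hτ
      have hn : 0 < ‖τ + I‖ := norm_pos_iff.2 (addI_ne hτ.le)
      have c3 := hp_cauchy (h := fun z => (B μ z) ^ 2 / 2 * (4 * ef τ z ^ 5 / (τ + I)))
        (C := |CB| ^ 2 * (4 * Ce ^ 5 / ‖τ + I‖))
        (((hBμ.pow 2).div_const 2).mul ((continuousOn_const.mul (hec.pow 5)).div_const _))
        (((hBd.pow 2).div_const 2).mul (((heh.pow 5).const_mul 4).div_const _))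
        (fun z hz => by
          rw [norm_mul, norm_div, norm_pow, norm_div, norm_mul, norm_pow]
          have e2 : ‖(2 : ℂ)‖ = 2 := by simp
          have e4 : ‖(4 : ℂ)‖ = 4 := by simp
          rw [e2, e4]
          have p1 : (1 : ℝ) ≤ 1 + ‖z‖ := by linarith [norm_nonneg z]
          calc ‖B μ z‖ ^ 2 / 2 * (4 * ‖ef τ z‖ ^ 5 / ‖τ + I‖)
              ≤ (|CB| * (1 + ‖z‖)) ^ 2 / 1 * (4 * (Ce / (1 + ‖z‖)) ^ 5 / ‖τ + I‖) := by
                have h5 := pow_le_pow_left₀ (norm_nonneg _) (he z hz) 5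
                have h2 := pow_le_pow_left₀ (norm_nonneg _) (hBb z hz) 2
                gcongr
                norm_num
            _ = |CB| ^ 2 * (4 * Ce ^ 5 / ‖τ + I‖) / (1 + ‖z‖) / (1 + ‖z‖) ^ 2 := by field_simp
            _ ≤ |CB| ^ 2 * (4 * Ce ^ 5 / ‖τ + I‖) / (1 + ‖z‖) :=
              div_le_self (by positivity) (one_le_pow₀ p1)) hτ
      have e1 : ∀ t : ℝ, (B μ t * (dbar φ μ * kf τ t) + (B μ t) ^ 2 / 2 * (φ μ * kf' τ t)) =
          dbar φ μ * (B μ t * ef τ t ^ 4 / (t - τ)) -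
          (φ μ * ((B μ t) ^ 2 / 2 * ef τ t ^ 4 / ((t : ℂ) - τ) ^ 2) +
           φ μ * ((B μ t) ^ 2 / 2 * (4 * ef τ t ^ 5 / (τ + I)) / (t - τ))) := by
        intro t
        unfold kf kf'
        ring
      simp only [e1]
      have i1 := c1.1.const_mul (dbar φ μ)
      have i2 := c2.1.const_mul (φ μ)
      have i3 := c3.1.const_mul (φ μ)
      have i4 : Integrable fun t : ℝ =>
          (φ μ * ((B μ t) ^ 2 / 2 * ef τ t ^ 4 / ((t : ℂ) - τ) ^ 2) +
           φ μ * ((B μ t) ^ 2 / 2 * (4 * ef τ t ^ 5 / (τ + I)) / (t - τ))) := i2.add i3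
      rw [integral_sub i1 i4, integral_add i2 i3, integral_const_mul,
        integral_const_mul, integral_const_mul, c1.2, c2.2, c3.2, ef_self hτ]
      have hBτ : HasDerivAt (B μ) (deriv (B μ) τ) τ :=
        (hBd.differentiableAt (isOpen_Ho.mem_nhds hτ)).hasDerivAt
      have heτ := ef_deriv hτ (le_of_lt hτ : τ ∈ Hc)
      have hder : deriv (fun z => (B μ z) ^ 2 / 2 * ef τ z ^ 4) τ =
          B μ τ * deriv (B μ) τ - (B μ τ) ^ 2 / 2 * (4 / (τ + I)) := by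
        have h1 : HasDerivAt (fun z => (B μ z) ^ 2 / 2 * ef τ z ^ 4)
            ((((2 : ℕ) : ℂ) * B μ τ ^ (2 - 1) * deriv (B μ) τ) / 2 * ef τ τ ^ 4 +
              (B μ τ) ^ 2 / 2 * (((4 : ℕ) : ℂ) * ef τ τ ^ (4 - 1) * (- (ef τ τ) ^ 2 / (τ + I)))) τ :=
          ((hBτ.pow 2).div_const 2).mul (heτ.pow 4)
        rw [h1.deriv, ef_self hτ]
        push_cast
        ring
      rw [hder]
      ring
    · rw [hφ0 μ hμ, hdφ0 μ hμ]
      simp
  simp only [hinner] at hJ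
  rw [integral_const_mul] at hJ
  exact (mul_eq_zero.1 hJ).resolve_left Complex.two_pi_I_ne_zero

end Pool.Agent.MPd01a95.BU
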