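import Pool.Agent.Lib.MP_d01a95_gt_P.BU.Fam
import Pool.Agent.Lib.SCV.Osgood

/-!
# MP_d01a95_gt, m = 2, part (1), block L: the local graph (helper72)
-/

set_option autoImplicit false
set_option linter.all false

open MeasureTheory Filter Topology Set Metric Complex
open scoped ContDiff NNReal

namespace Pool.Agent.MPd01a95.BU

/-- fixed points of contractions of a disc -/
theorem fp {S : ℂ → ℂ} {z : ℂ} {R : ℝ} (hR : 0 ≤ R)
    (hmap : MapsTo S (closedBall z R) (closedBall z R))
    (hL : ∀ x ∈ closedBall z R, ∀ y ∈ closedBall z R, ‖S x - S y‖ ≤ (1 / 4) * ‖x - y‖) :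
    ∃ x ∈ closedBall z R, S x = x := by
  have hc : ContractingWith (1 / 4 : ℝ≥0) (hmap.restrict S (closedBall z R) (closedBall z R)) := by
    refine ⟨?_, ?_⟩
    · rw [← NNReal.coe_lt_coe]
      norm_num
    · apply LipschitzWith.of_dist_le_mul
      intro x y
      have h1 := hL x x.2 y y.2
      rw [Subtype.dist_eq, Subtype.dist_eq, dist_eq_norm, dist_eq_norm]
      simpa using h1
  obtain ⟨y, hy, h1, -⟩ := ContractingWith.exists_fixedPoint' isClosed_closedBall.isComplete hmap hc
    (x := z) (mem_closedBall_self hR) (edist_ne_top _ _)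
  exact ⟨y, hy, h1⟩

/-- the residue formula -/
theorem contour {b L L' : ℂ → ℂ} {U : Set ℂ} (hU : IsOpen U) {z : ℂ} {R : ℝ} (hR : 0 < R)
    (hsub : closedBall z R ⊆ U) (hb : DifferentiableOn ℂ b U) (hL : DifferentiableOn ℂ L U)
    (hL' : ∀ x ∈ U, HasDerivAt L (L' x) x) {w : ℂ} (hw : w ∈ ball z R) (h0 : L w = 0)
    (hne : ∀ x ∈ closedBall z R, x ≠ w → L x ≠ 0) (hw' : L' w ≠ 0) :
    (∮ x in C(z, R), b x * L' x * (L x)⁻¹) = 2 * Real.pi * I * b w := by
  have hwU : U ∈ 𝓝 w := hU.mem_nhds (hsub (ball_subset_closedBall hw))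
  have hQ : DifferentiableOn ℂ (dslope L w) U := (Complex.differentiableOn_dslope hwU).2 hL
  have hQne : ∀ x ∈ closedBall z R, dslope L w x ≠ 0 := by
    intro x hx
    by_cases hxw : x = w
    · rw [hxw, dslope_same, (hL' w (mem_of_mem_nhds hwU)).deriv]
      exact hw'
    · rw [dslope_of_ne _ hxw, slope_def_field, h0, sub_zero]
      exact div_ne_zero (hne x hx hxw) (sub_ne_zero.2 hxw)
  have hfac : ∀ x, L x = (x - w) * dslope L w x := by
    intro x
    have h1 := sub_smul_dslope L w x
    rw [smul_eq_mul, h0, sub_zero] at h1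
    exact h1.symm
  have hQ' : DifferentiableOn ℂ (deriv (dslope L w)) U := hQ.deriv hU
  have hLd : ∀ x ∈ U, L' x = dslope L w x + (x - w) * deriv (dslope L w) x := by
    intro x hx
    have h1 : HasDerivAt (dslope L w) (deriv (dslope L w) x) x :=
      (hQ.differentiableAt (hU.mem_nhds hx)).hasDerivAt
    have h2 : HasDerivAt (fun x => x - w) 1 x := by simpa using (hasDerivAt_id x).sub_const w
    have h3 : HasDerivAt (fun x => (x - w) * dslope L w x)
        (1 * dslope L w x + (x - w) * deriv (dslope L w) x) x := h2.mul h1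
    have h4 : HasDerivAt L (1 * dslope L w x + (x - w) * deriv (dslope L w) x) x :=
      h3.congr_of_eventuallyEq (Eventually.of_forall hfac)
    rw [one_mul] at h4
    exact (hL' x hx).unique h4
  have hsph : ∀ x ∈ sphere z R, x ≠ w := by
    rintro x hx rfl
    rw [mem_ball] at hw
    rw [mem_sphere] at hx
    linarith
  have e1 : (∮ x in C(z, R), b x * L' x * (L x)⁻¹) =
      ∮ x in C(z, R), ((x - w)⁻¹ • b x + b x * deriv (dslope L w) x * (dslope L w x)⁻¹) := by
    apply circleIntegral.integral_congr hR.le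
    intro x hx
    have hxc := sphere_subset_closedBall hx
    have h1 := hQne x hxc
    have h2 : x - w ≠ 0 := sub_ne_zero.2 (hsph x hx)
    simp only [smul_eq_mul]
    rw [hLd x (hsub hxc), hfac x]
    field_simp
  have hcb : ContinuousOn b (closedBall z R) := hb.continuousOn.mono hsub
  have hcQ : ContinuousOn (dslope L w) (closedBall z R) := hQ.continuousOn.mono hsub
  have hcQ' : ContinuousOn (deriv (dslope L w)) (closedBall z R) := hQ'.continuousOn.mono hsub
  have i1 : CircleIntegrable (fun x => (x - w)⁻¹ • b x) z R := by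
    apply ContinuousOn.circleIntegrable hR.le
    have h5 : ContinuousOn (fun x => (x - w)⁻¹) (sphere z R) :=
      ContinuousOn.inv₀ (by fun_prop) fun x hx => sub_ne_zero.2 (hsph x hx)
    exact h5.smul (hcb.mono sphere_subset_closedBall)
  have c2 : ContinuousOn (fun x => b x * deriv (dslope L w) x * (dslope L w x)⁻¹)
      (closedBall z R) := (hcb.mul hcQ').mul (hcQ.inv₀ hQne)
  have i2 : CircleIntegrable (fun x => b x * deriv (dslope L w) x * (dslope L w x)⁻¹) z R :=
    (c2.mono sphere_subset_closedBall).circleIntegrable hR.le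
  rw [e1, circleIntegral.integral_add i1 i2]
  have e2 : (∮ x in C(z, R), (x - w)⁻¹ • b x) = (2 * Real.pi * I : ℂ) • b w :=
    DifferentiableOn.circleIntegral_sub_inv_smul (hb.mono hsub) hw
  have e3 : (∮ x in C(z, R), b x * deriv (dslope L w) x * (dslope L w x)⁻¹) = 0 := by
    apply Complex.circleIntegral_eq_zero_of_differentiable_on_off_countable hR.le
      (s := ∅) countable_empty c2
    intro x hx
    have hxU : U ∈ 𝓝 x := hU.mem_nhds (hsub (ball_subset_closedBall hx.1))
    exact ((hb.differentiableAt hxU).mul (hQ'.differentiableAt hxU)).mul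
      ((hQ.differentiableAt hxU).inv (hQne x (ball_subset_closedBall hx.1)))
  rw [e2, e3, add_zero, smul_eq_mul]

/-- the conjugation -/
theorem wd_conj (a : ℂ) : WD univ (fun μ => star μ - star a) fun _ => 1 := by
  have h1 : ContDiff ℝ 1 fun μ : ℂ => star μ - star a := by
    have h2 : ContDiff ℝ 1 fun μ : ℂ => star μ := Complex.conjCLE.contDiff
    exact h2.sub contDiff_const
  have h3 := WD.of_contDiffOn isOpen_univ h1.contDiffOn
  refine h3.congr (fun _ _ => rfl) fun z _ => ?_
  have h4 : HasFDerivAt (fun μ : ℂ => star μ - star a) (Complex.conjCLE : ℂ →L[ℝ] ℂ) z :=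
    (Complex.conjCLE : ℂ →L[ℝ] ℂ).hasFDerivAt.sub_const (star a)
  simp only [dbar, h4.fderiv]
  simp
  norm_num

section main

variable {B : ℂ → ℂ → ℂ} (hB : Fam B)
  (hw : ∀ τ ∈ Ho, WD univ (fun μ => B μ τ) fun μ => -(B μ τ * deriv (B μ) τ)) (a : ℂ)

include hB hw

/-- the weak derivative of the integrand -/
theorem integrand_wd {U : Set ℂ} (hU : IsOpen U) {τ : ℂ} (hτ : τ ∈ Ho) (c : ℂ)
    (hne : ∀ μ ∈ U, τ - (star μ - star a) * B μ τ - c ≠ 0) :
    WD U (fun μ => B μ τ * (1 - (star μ - star a) * deriv (B μ) τ) *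
      (τ - (star μ - star a) * B μ τ - c)⁻¹) fun μ =>
        -(2 * B μ τ * deriv (B μ) τ * (1 - (star μ - star a) * deriv (B μ) τ) *
          (τ - (star μ - star a) * B μ τ - c)⁻¹ +
          B μ τ ^ 2 * (-((star μ - star a) * deriv (fun σ => deriv (B μ) σ) τ)) *
          (τ - (star μ - star a) * B μ τ - c)⁻¹ +
          B μ τ ^ 2 * (1 - (star μ - star a) * deriv (B μ) τ) *
          (-(1 - (star μ - star a) * deriv (B μ) τ) /
            (τ - (star μ - star a) * B μ τ - c) ^ 2)) := by
  have hB' : Fam fun μ τ => deriv (B μ) τ := hB.deriv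
  have hBB : Fam fun μ τ => B μ τ * deriv (B μ) τ := hB.mul hB'
  have hBB' : Fam fun μ τ => deriv (fun σ => B μ σ * deriv (B μ) σ) τ := hBB.deriv
  have cδ : Continuous fun μ : ℂ => star μ - star a := by fun_prop
  have cB := hB.slice hτ
  have cB' := hB'.slice hτ
  have cBB := hBB.slice hτ
  have cBB' := hBB'.slice hτ
  have w1 := hw τ hτ
  have w2 : WD univ (fun μ => deriv (B μ) τ) fun μ =>
      -deriv (fun σ => B μ σ * deriv (B μ) σ) τ := by
    have h1 := WD.deriv hB hBB.neg (fun τ hτ => hw τ hτ) hτ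
    refine h1.congr (fun _ _ => rfl) fun μ _ => ?_
    exact deriv.fun_neg
  have wδ := wd_conj a
  have w3 := wδ.mul isOpen_univ w1 cδ.continuousOn continuousOn_const cB.continuousOn
    cBB.neg.continuousOn
  have w5 := wδ.mul isOpen_univ w2 cδ.continuousOn continuousOn_const cB'.continuousOn
    cBB'.neg.continuousOn
  have wconst : ∀ k : ℂ, WD univ (fun _ => k) fun _ => 0 := by
    intro k
    refine (WD.of_contDiffOn isOpen_univ (contDiff_const (c := k)).contDiffOn).congr
      (fun _ _ => rfl) fun z _ => ?_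
    simp [dbar]
  have w4 : WD univ (fun μ => τ - (star μ - star a) * B μ τ - c) fun μ =>
      -(B μ τ * (1 - (star μ - star a) * deriv (B μ) τ)) := by
    have h1 := (wconst (τ - c)).add (w3.const_mul (-1)) continuousOn_const continuousOn_const
      (continuous_const.mul (cδ.mul cB)).continuousOn
      (continuous_const.mul ((continuous_const.mul cB).add (cδ.mul cBB.neg))).continuousOn
    exact h1.congr (fun μ _ => by ring) fun μ _ => by ring
  have w6 : WD univ (fun μ => 1 - (star μ - star a) * deriv (B μ) τ) fun μ =>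
      -(deriv (B μ) τ - (star μ - star a) * deriv (fun σ => B μ σ * deriv (B μ) σ) τ) := by
    have h1 := (wconst 1).add (w5.const_mul (-1)) continuousOn_const continuousOn_const
      (continuous_const.mul (cδ.mul cB')).continuousOn
      (continuous_const.mul ((continuous_const.mul cB').add (cδ.mul cBB'.neg))).continuousOn
    exact h1.congr (fun μ _ => by ring) fun μ _ => by ring
  have cLt : Continuous fun μ : ℂ => 1 - (star μ - star a) * deriv (B μ) τ :=
    continuous_const.sub (cδ.mul cB')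
  have cL : Continuous fun μ : ℂ => τ - (star μ - star a) * B μ τ - c :=
    (continuous_const.sub (cδ.mul cB)).sub continuous_const
  have cLt' : Continuous fun μ : ℂ =>
      -(deriv (B μ) τ - (star μ - star a) * deriv (fun σ => B μ σ * deriv (B μ) σ) τ) :=
    (cB'.sub (cδ.mul cBB')).neg
  have w7 := w1.mul isOpen_univ w6 cB.continuousOn cBB.neg.continuousOn cLt.continuousOn
    cLt'.continuousOn
  have w8 := (w4.mono (subset_univ U)).inv hU cL.continuousOn (cB.mul cLt).neg.continuousOn hne
  have w9 := (w7.mono (subset_univ U)).mul hU w8 (cB.mul cLt).continuousOn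
    ((cBB.neg.mul cLt).add (cB.mul cLt')).continuousOn (cL.continuousOn.inv₀ hne)
    ((cB.mul cLt).neg.neg.continuousOn.div (cL.continuousOn.pow 2)
      fun μ hμ => pow_ne_zero 2 (hne μ hμ))
  refine w9.congr (fun _ _ => rfl) fun μ hμ => ?_
  have h0 := hne μ hμ
  have hd : deriv (fun σ => B μ σ * deriv (B μ) σ) τ =
      deriv (B μ) τ * deriv (B μ) τ + B μ τ * deriv (fun σ => deriv (B μ) σ) τ := by
    have h1 : HasDerivAt (B μ) (deriv (B μ) τ) τ :=
      ((hB.hol μ).differentiableAt (isOpen_Ho.mem_nhds hτ)).hasDerivAt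
    have h2 : HasDerivAt (fun σ => deriv (B μ) σ) (deriv (fun σ => deriv (B μ) σ) τ) τ :=
      ((hB'.hol μ).differentiableAt (isOpen_Ho.mem_nhds hτ)).hasDerivAt
    exact (h1.mul h2).deriv
  simp only [hd]
  field_simp
  ring

/-- the contour integral is weakly holomorphic -/
theorem contour_wd {U : Set ℂ} (hU : IsOpen U) {z : ℂ} {R : ℝ} (hR : 0 ≤ R)
    (hsub : closedBall z R ⊆ Ho) (c : ℂ)
    (hne : ∀ μ ∈ U, ∀ τ ∈ sphere z R, τ - (star μ - star a) * B μ τ - c ≠ 0) :
    WD U (fun μ => ∮ τ in C(z, R), B μ τ * (1 - (star μ - star a) * deriv (B μ) τ) *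
      (τ - (star μ - star a) * B μ τ - c)⁻¹) fun _ => 0 := by
  have hB' : Fam fun μ τ => deriv (B μ) τ := hB.deriv
  have hB'' : Fam fun μ τ => deriv (fun σ => deriv (B μ) σ) τ := hB'.deriv
  have hS : U ×ˢ sphere z R ⊆ {p : ℂ × ℂ | 0 < p.2.im} :=
    fun p hp => hsub (sphere_subset_closedBall hp.2)
  have cB := hB.cont.mono hS
  have cB' := hB'.cont.mono hS
  have cB'' := hB''.cont.mono hS
  have cδ : ContinuousOn (fun p : ℂ × ℂ => star p.1 - star a) (U ×ˢ sphere z R) := by fun_prop
  have cLt : ContinuousOn (fun p : ℂ × ℂ => 1 - (star p.1 - star a) * deriv (B p.1) p.2)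
      (U ×ˢ sphere z R) := continuousOn_const.sub (cδ.mul cB')
  have cL : ContinuousOn (fun p : ℂ × ℂ => p.2 - (star p.1 - star a) * B p.1 p.2 - c)
      (U ×ˢ sphere z R) := (continuousOn_snd.sub (cδ.mul cB)).sub continuousOn_const
  have hne' : ∀ p ∈ U ×ˢ sphere z R, p.2 - (star p.1 - star a) * B p.1 p.2 - c ≠ 0 :=
    fun p hp => hne p.1 hp.1 p.2 hp.2
  have cLi := cL.inv₀ hne'
  have h1 := WD.circle (U := U) hR
    (W := fun μ τ => B μ τ * (1 - (star μ - star a) * deriv (B μ) τ) *
      (τ - (star μ - star a) * B μ τ - c)⁻¹)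
    (V := fun μ τ =>
        -(2 * B μ τ * deriv (B μ) τ * (1 - (star μ - star a) * deriv (B μ) τ) *
          (τ - (star μ - star a) * B μ τ - c)⁻¹ +
          B μ τ ^ 2 * (-((star μ - star a) * deriv (fun σ => deriv (B μ) σ) τ)) *
          (τ - (star μ - star a) * B μ τ - c)⁻¹ +
          B μ τ ^ 2 * (1 - (star μ - star a) * deriv (B μ) τ) *
          (-(1 - (star μ - star a) * deriv (B μ) τ) /
            (τ - (star μ - star a) * B μ τ - c) ^ 2)))
    ((cB.mul cLt).mul cLi)
    (((((continuousOn_const.mul cB).mul cB').mul cLt).mul cLi).add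
      (((cB.pow 2).mul (cδ.mul cB'').neg).mul cLi) |>.add
      (((cB.pow 2).mul cLt).mul (cLt.neg.div (cL.pow 2) fun p hp => pow_ne_zero 2 (hne' p hp)))
      |>.neg)
    (fun τ hτ => integrand_wd hB hw a hU (hsub (sphere_subset_closedBall hτ)) c
      fun μ hμ => hne μ hμ τ hτ)
  refine h1.congr (fun _ _ => rfl) fun μ hμ => ?_
  -- the integral of a derivative
  have h2 := circleIntegral.integral_eq_zero_of_hasDerivWithinAt (c := z) (R := R) hR
    (f := fun τ => -(B μ τ ^ 2 * (1 - (star μ - star a) * deriv (B μ) τ) *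
      (τ - (star μ - star a) * B μ τ - c)⁻¹))
    (f' := fun τ =>
        -(2 * B μ τ * deriv (B μ) τ * (1 - (star μ - star a) * deriv (B μ) τ) *
          (τ - (star μ - star a) * B μ τ - c)⁻¹ +
          B μ τ ^ 2 * (-((star μ - star a) * deriv (fun σ => deriv (B μ) σ) τ)) *
          (τ - (star μ - star a) * B μ τ - c)⁻¹ +
          B μ τ ^ 2 * (1 - (star μ - star a) * deriv (B μ) τ) *
          (-(1 - (star μ - star a) * deriv (B μ) τ) /
            (τ - (star μ - star a) * B μ τ - c) ^ 2)))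
    (fun τ hτ => ?_)
  · exact h2
  · have hτH := hsub (sphere_subset_closedBall hτ)
    have d1 : HasDerivAt (B μ) (deriv (B μ) τ) τ :=
      ((hB.hol μ).differentiableAt (isOpen_Ho.mem_nhds hτH)).hasDerivAt
    have d2 : HasDerivAt (fun σ => deriv (B μ) σ) (deriv (fun σ => deriv (B μ) σ) τ) τ :=
      ((hB'.hol μ).differentiableAt (isOpen_Ho.mem_nhds hτH)).hasDerivAt
    have d3 : HasDerivAt (fun τ => 1 - (star μ - star a) * deriv (B μ) τ)
        (-((star μ - star a) * deriv (fun σ => deriv (B μ) σ) τ)) τ := by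
      have := (d2.const_mul (star μ - star a)).const_sub 1
      exact this
    have d4 : HasDerivAt (fun τ => τ - (star μ - star a) * B μ τ - c)
        (1 - (star μ - star a) * deriv (B μ) τ) τ :=
      ((hasDerivAt_id τ).sub (d1.const_mul (star μ - star a))).sub_const c
    have d5 : HasDerivAt (fun τ => (τ - (star μ - star a) * B μ τ - c)⁻¹)
        (-(1 - (star μ - star a) * deriv (B μ) τ) / (τ - (star μ - star a) * B μ τ - c) ^ 2) τ :=
      d4.inv (hne μ hμ τ hτ)
    have d6 : HasDerivAt (fun τ => B μ τ ^ 2) (2 * B μ τ * deriv (B μ) τ) τ := by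
      have h9 : HasDerivAt (fun τ => B μ τ ^ 2)
          (((2 : ℕ) : ℂ) * B μ τ ^ (2 - 1) * deriv (B μ) τ) τ := d1.pow 2
      have e9 : 2 * B μ τ * deriv (B μ) τ = ((2 : ℕ) : ℂ) * B μ τ ^ (2 - 1) * deriv (B μ) τ := by
        push_cast
        ring
      rw [e9]
      exact h9
    have d7 := (((d6.mul d3).mul d5).neg).hasDerivWithinAt (s := sphere z R)
    have e : -((2 * B μ τ * deriv (B μ) τ * (1 - (star μ - star a) * deriv (B μ) τ) +
        B μ τ ^ 2 * (-((star μ - star a) * deriv (fun σ => deriv (B μ) σ) τ))) *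
          (τ - (star μ - star a) * B μ τ - c)⁻¹ +
        B μ τ ^ 2 * (1 - (star μ - star a) * deriv (B μ) τ) *
          (-(1 - (star μ - star a) * deriv (B μ) τ) / (τ - (star μ - star a) * B μ τ - c) ^ 2)) =
        -(2 * B μ τ * deriv (B μ) τ * (1 - (star μ - star a) * deriv (B μ) τ) *
          (τ - (star μ - star a) * B μ τ - c)⁻¹ +
          B μ τ ^ 2 * (-((star μ - star a) * deriv (fun σ => deriv (B μ) σ) τ)) *
          (τ - (star μ - star a) * B μ τ - c)⁻¹ +
          B μ τ ^ 2 * (1 - (star μ - star a) * deriv (B μ) τ) *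
          (-(1 - (star μ - star a) * deriv (B μ) τ) /
            (τ - (star μ - star a) * B μ τ - c) ^ 2)) := by ring
    rw [← e]
    exact d7

end main

end Pool.Agent.MPd01a95.BU
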