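import Pool.Agent.Lib.MP_d01a95_gt_P.BU.Moll
import Pool.Agent.Lib.MP_d01a95_gt_P.BU.HP

/-!
# MP_d01a95_gt, m = 2, part (1), block L: families of holomorphic functions (helper72)
-/

set_option autoImplicit false
set_option linter.all false

open MeasureTheory Filter Topology Set Metric Complex
open scoped ContDiff

namespace Pool.Agent.MPd01a95.BU

/-- families of holomorphic functions on the upper half plane -/
structure Fam (f : ℂ → ℂ → ℂ) : Prop where
  cont : ContinuousOn (fun p : ℂ × ℂ => f p.1 p.2) {p | 0 < p.2.im}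
  hol : ∀ μ, DifferentiableOn ℂ (f μ) Ho

namespace Fam

variable {f g : ℂ → ℂ → ℂ}

theorem slice (hf : Fam f) {τ : ℂ} (hτ : 0 < τ.im) : Continuous fun μ => f μ τ := by
  have h1 : Continuous fun μ : ℂ => ((μ, τ) : ℂ × ℂ) := by fun_prop
  exact hf.cont.comp_continuous h1 fun _ => hτ

theorem mul (hf : Fam f) (hg : Fam g) : Fam fun μ τ => f μ τ * g μ τ :=
  ⟨hf.cont.mul hg.cont, fun μ => (hf.hol μ).mul (hg.hol μ)⟩

theorem neg (hf : Fam f) : Fam fun μ τ => - f μ τ :=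
  ⟨hf.cont.neg, fun μ => (hf.hol μ).neg⟩

theorem unif (hf : Fam f) (μ₀ : ℂ) : TendstoLocallyUniformlyOn f (f μ₀) (𝓝 μ₀) Ho := by
  intro u hu τ hτ
  obtain ⟨r, hr, hrU⟩ := nhds_basis_closedBall.mem_iff.1 (isOpen_Ho.mem_nhds hτ)
  have hc : ContinuousOn (Function.uncurry f) (univ ×ˢ closedBall τ r) :=
    hf.cont.mono fun p hp => hrU hp.2
  obtain ⟨v, hv, h⟩ := (isCompact_closedBall τ r).mem_uniformity_of_prod hc (mem_univ μ₀)
    (symm_le_uniformity hu)
  rw [nhdsWithin_univ] at hv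
  refine ⟨closedBall τ r, mem_nhdsWithin_of_mem_nhds (closedBall_mem_nhds τ hr), ?_⟩
  filter_upwards [hv] with μ hμ σ hσ
  exact h μ hμ σ hσ

theorem deriv (hf : Fam f) : Fam fun μ τ => deriv (f μ) τ := by
  refine ⟨?_, fun μ => (hf.hol μ).deriv isOpen_Ho⟩
  rintro ⟨μ₀, τ₀⟩ hτ₀
  have hτ₀' : τ₀ ∈ Ho := hτ₀
  have h1 := (hf.unif μ₀).deriv (Eventually.of_forall hf.hol) isOpen_Ho
  have h2 : ContinuousOn (_root_.deriv (f μ₀)) Ho :=
    ((hf.hol μ₀).deriv isOpen_Ho).continuousOn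
  apply ContinuousAt.continuousWithinAt
  rw [Metric.continuousAt_iff']
  intro ε hε
  rw [Metric.tendstoLocallyUniformlyOn_iff] at h1
  obtain ⟨t, ht, h3⟩ := h1 (ε / 2) (by positivity) τ₀ hτ₀'
  rw [isOpen_Ho.nhdsWithin_eq hτ₀'] at ht
  have h4 : ∀ᶠ τ in 𝓝 τ₀, dist (_root_.deriv (f μ₀) τ) (_root_.deriv (f μ₀) τ₀) < ε / 2 :=
    (Metric.continuousAt_iff'.1 (h2.continuousAt (isOpen_Ho.mem_nhds hτ₀'))) (ε / 2)
      (by positivity)
  rw [nhds_prod_eq]
  filter_upwards [h3.prod_mk (h4.and ht)] with p hp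
  have h5 := hp.1 p.2 hp.2.2
  have h6 := hp.2.1
  rw [dist_comm] at h5
  calc dist (_root_.deriv (f p.1) p.2) (_root_.deriv (f μ₀) τ₀)
      ≤ dist (_root_.deriv (f p.1) p.2) (_root_.deriv (f μ₀) p.2) +
        dist (_root_.deriv (f μ₀) p.2) (_root_.deriv (f μ₀) τ₀) := dist_triangle _ _ _
    _ < ε / 2 + ε / 2 := add_lt_add h5 h6
    _ = ε := by ring

end Fam

/-- change of the order of integration -/
theorem swap_aux {K : Set ℂ} (hK : IsCompact K) {H : ℂ → ℝ → ℂ}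
    (hH : ContinuousOn (fun p : ℂ × ℝ => H p.1 p.2) (K ×ˢ univ))
    (h0 : ∀ μ, μ ∉ K → ∀ θ, H μ θ = 0) (a b : ℝ) :
    ∫ μ, ∫ θ in a..b, H μ θ = ∫ θ in a..b, ∫ μ, H μ θ := by
  symm
  apply intervalIntegral_integral_swap (f := fun θ μ => H μ θ)
  have h1 : (volume.restrict (uIoc a b)).prod (volume : Measure ℂ) =
      ((volume : Measure ℝ).prod (volume : Measure ℂ)).restrict (uIoc a b ×ˢ univ) := by
    rw [← Measure.prod_restrict, Measure.restrict_univ]
  rw [h1]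
  have h2 : IntegrableOn (Function.uncurry fun θ μ => H μ θ) (uIcc a b ×ˢ K)
      ((volume : Measure ℝ).prod (volume : Measure ℂ)) := by
    apply ContinuousOn.integrableOn_compact (isCompact_uIcc.prod hK)
    have h3 : ContinuousOn (fun p : ℝ × ℂ => (p.2, p.1)) (uIcc a b ×ˢ K) := by fun_prop
    exact hH.comp h3 fun p hp => ⟨hp.2, mem_univ _⟩
  have h4 : IntegrableOn (Function.uncurry fun θ μ => H μ θ) (uIcc a b ×ˢ univ)
      ((volume : Measure ℝ).prod (volume : Measure ℂ)) := by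
    apply IntegrableOn.of_ae_diff_eq_zero h2
    · exact (measurableSet_uIcc.prod MeasurableSet.univ).nullMeasurableSet
    · refine Eventually.of_forall fun p hp => ?_
      have : p.2 ∉ K := fun h => hp.2 ⟨hp.1.1, h⟩
      exact h0 p.2 this p.1
  exact h4.mono_set (prod_mono uIoc_subset_uIcc le_rfl)

/-- circle integrals of weak derivatives -/
theorem WD.circle {U : Set ℂ} {c : ℂ} {r : ℝ} {W V : ℂ → ℂ → ℂ} (hr : 0 ≤ r)
    (hW : ContinuousOn (fun p : ℂ × ℂ => W p.1 p.2) (U ×ˢ sphere c r))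
    (hV : ContinuousOn (fun p : ℂ × ℂ => V p.1 p.2) (U ×ˢ sphere c r))
    (h : ∀ ζ ∈ sphere c r, WD U (fun μ => W μ ζ) fun μ => V μ ζ) :
    WD U (fun μ => ∮ ζ in C(c, r), W μ ζ) (fun μ => ∮ ζ in C(c, r), V μ ζ) := by
  intro φ hφ hc hs
  have hK : IsCompact (tsupport φ) := hc
  have hcm : Continuous (circleMap c r) := continuous_circleMap c r
  have hdcm : Continuous fun θ => deriv (circleMap c r) θ := by
    simp only [deriv_circleMap]
    fun_prop
  have key : ∀ (Z : ℂ → ℂ → ℂ) (ψ : ℂ → ℂ),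
      ContinuousOn (fun p : ℂ × ℂ => Z p.1 p.2) (U ×ˢ sphere c r) → Continuous ψ →
      (∀ z, z ∉ tsupport φ → ψ z = 0) →
      ∫ μ, (∮ ζ in C(c, r), Z μ ζ) * ψ μ = ∮ ζ in C(c, r), ∫ μ, Z μ ζ * ψ μ := by
    intro Z ψ hZ hψ hψ0
    have h1 := swap_aux hK (H := fun μ θ => deriv (circleMap c r) θ *
      (Z μ (circleMap c r θ) * ψ μ)) ?_ ?_ 0 (2 * Real.pi)
    · calc ∫ μ, (∮ ζ in C(c, r), Z μ ζ) * ψ μ = ∫ μ, ∫ θ in (0 : ℝ)..2 * Real.pi,
            deriv (circleMap c r) θ * (Z μ (circleMap c r θ) * ψ μ) := by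
            congr 1
            funext μ
            unfold circleIntegral
            rw [← intervalIntegral.integral_mul_const]
            congr 1
            funext θ
            rw [smul_eq_mul, mul_assoc]
        _ = ∫ θ in (0 : ℝ)..2 * Real.pi, ∫ μ, deriv (circleMap c r) θ *
              (Z μ (circleMap c r θ) * ψ μ) := h1
        _ = ∮ ζ in C(c, r), ∫ μ, Z μ ζ * ψ μ := by
            unfold circleIntegral
            congr 1
            funext θ
            rw [integral_const_mul, smul_eq_mul]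
    · apply ContinuousOn.mul (hdcm.comp_continuousOn continuousOn_snd)
      apply ContinuousOn.mul _ (hψ.comp_continuousOn continuousOn_fst)
      have h3 : ContinuousOn (fun p : ℂ × ℝ => ((p.1, circleMap c r p.2) : ℂ × ℂ))
          (tsupport φ ×ˢ univ) := by
        apply Continuous.continuousOn
        exact continuous_fst.prodMk (hcm.comp continuous_snd)
      exact hZ.comp h3 fun p hp => ⟨hs hp.1, circleMap_mem_sphere c hr p.2⟩
    · intro μ hμ θ
      rw [hψ0 μ hμ, mul_zero, mul_zero]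
  rw [key W (dbar φ) hW (continuous_dbar hφ) fun z hz => dbar_eq_zero hz,
    key V φ hV hφ.continuous fun z hz => image_eq_zero_of_notMem_tsupport hz]
  have h2 : (∮ ζ in C(c, r), ∫ μ, W μ ζ * dbar φ μ) = ∮ ζ in C(c, r), - ∫ μ, V μ ζ * φ μ := by
    apply circleIntegral.integral_congr hr
    intro ζ hζ
    exact h ζ hζ φ hφ hc hs
  rw [h2]
  unfold circleIntegral
  rw [← intervalIntegral.integral_neg]
  congr 1
  funext θ
  rw [smul_neg]

/-- weak derivatives of the derivative with respect to the parameter -/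
theorem WD.deriv {f g : ℂ → ℂ → ℂ} (hf : Fam f) (hg : Fam g)
    (h : ∀ τ ∈ Ho, WD univ (fun μ => f μ τ) fun μ => g μ τ) {τ : ℂ} (hτ : τ ∈ Ho) :
    WD univ (fun μ => deriv (f μ) τ) fun μ => deriv (g μ) τ := by
  obtain ⟨r, hr, hrU⟩ := nhds_basis_closedBall.mem_iff.1 (isOpen_Ho.mem_nhds hτ)
  have hne : ∀ ζ ∈ sphere τ r, (ζ - τ) ^ 2 ≠ 0 := by
    intro ζ hζ h0
    have h1 : ζ - τ = 0 := by simpa using h0
    rw [mem_sphere, dist_eq_norm, h1, norm_zero] at hζ
    linarith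
  have hcont : ∀ k : ℂ → ℂ → ℂ, Fam k → ContinuousOn
      (fun p : ℂ × ℂ => (2 * Real.pi * I : ℂ)⁻¹ * (((p.2 - τ) ^ 2)⁻¹ * k p.1 p.2))
      (univ ×ˢ sphere τ r) := by
    intro k hk
    apply ContinuousOn.mul continuousOn_const
    apply ContinuousOn.mul
    · apply ContinuousOn.inv₀ (by fun_prop)
      intro p hp
      exact hne p.2 hp.2
    · exact hk.cont.mono fun p hp => hrU (sphere_subset_closedBall hp.2)
  have hform : ∀ k : ℂ → ℂ → ℂ, Fam k → ∀ μ,
      (∮ ζ in C(τ, r), (2 * Real.pi * I : ℂ)⁻¹ * (((ζ - τ) ^ 2)⁻¹ * k μ ζ)) =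
        _root_.deriv (k μ) τ := by
    intro k hk μ
    have h1 := two_pi_I_inv_smul_circleIntegral_sub_sq_inv_smul_of_differentiable isOpen_Ho hrU
      (hk.hol μ) (mem_ball_self hr)
    simp only [smul_eq_mul] at h1
    rw [circleIntegral.integral_const_mul, h1]
  have h2 := WD.circle (U := univ)
    (W := fun μ ζ => (2 * Real.pi * I : ℂ)⁻¹ * (((ζ - τ) ^ 2)⁻¹ * f μ ζ))
    (V := fun μ ζ => (2 * Real.pi * I : ℂ)⁻¹ * (((ζ - τ) ^ 2)⁻¹ * g μ ζ))
    hr.le (hcont f hf) (hcont g hg) fun ζ hζ => by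
      have h3 := (h ζ (hrU (sphere_subset_closedBall hζ))).const_mul
        ((2 * Real.pi * I : ℂ)⁻¹ * ((ζ - τ) ^ 2)⁻¹)
      exact h3.congr (fun μ _ => mul_assoc _ _ _) (fun μ _ => mul_assoc _ _ _)
  simp only [hform f hf, hform g hg] at h2
  exact h2

end Pool.Agent.MPd01a95.BU
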