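import Pool.Agent.Lib.MP_d01a95_gt_P.BU.WD

/-!
# MP_d01a95_gt, m = 2, part (1), block L: mollification, products, inverses, Weyl lemma (helper72)
-/

set_option autoImplicit false
set_option linter.all false

open MeasureTheory Filter Topology Set Metric
open scoped ContDiff Convolution

namespace Pool.Agent.MPd01a95.BU

/-- the mollified function -/
noncomputable def mol (ρ : ContDiffBump (0 : ℂ)) (f : ℂ → ℂ) : ℂ → ℂ :=
  (ρ.normed volume ⋆[ContinuousLinearMap.lsmul ℝ ℝ, volume] f)

theorem mol_contDiff (ρ : ContDiffBump (0 : ℂ)) {f : ℂ → ℂ} (hf : LocallyIntegrable f volume) :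
    ContDiff ℝ ∞ (mol ρ f) :=
  ρ.hasCompactSupport_normed.contDiff_convolution_left _ ρ.contDiff_normed hf

/-- the translated bump as a complex valued test function -/
noncomputable def tb (ρ : ContDiffBump (0 : ℂ)) (x : ℂ) (y : ℂ) : ℂ :=
  ((ρ.normed volume (x - y) : ℝ) : ℂ)

theorem tb_contDiff (ρ : ContDiffBump (0 : ℂ)) (x : ℂ) : ContDiff ℝ ∞ (tb ρ x) := by
  have h1 : ContDiff ℝ ∞ (fun y : ℂ => ρ.normed volume (x - y)) :=
    (ρ.contDiff_normed (n := ⊤)).comp (contDiff_const.sub contDiff_id)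
  exact Complex.ofRealCLM.contDiff.comp h1

theorem tb_zero (ρ : ContDiffBump (0 : ℂ)) (x : ℂ) {y : ℂ} (h : y ∉ ball x ρ.rOut) :
    tb ρ x y = 0 := by
  have h1 : x - y ∉ Function.support (ρ.normed volume) := by
    rw [ρ.support_normed_eq]
    intro h2
    apply h
    rw [mem_ball, dist_zero_right] at h2
    rw [mem_ball, dist_comm, dist_eq_norm]
    exact h2
  simp only [Function.mem_support, not_not] at h1
  simp [tb, h1]

theorem tb_tsupport (ρ : ContDiffBump (0 : ℂ)) (x : ℂ) :
    tsupport (tb ρ x) ⊆ closedBall x ρ.rOut := by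
  apply closure_minimal _ isClosed_closedBall
  intro y hy
  by_contra h
  exact hy (tb_zero ρ x fun h2 => h (ball_subset_closedBall h2))

theorem tb_hcs (ρ : ContDiffBump (0 : ℂ)) (x : ℂ) : HasCompactSupport (tb ρ x) :=
  (isCompact_closedBall x ρ.rOut).of_isClosed_subset (isClosed_tsupport _) (tb_tsupport ρ x)

theorem mol_apply (ρ : ContDiffBump (0 : ℂ)) (f : ℂ → ℂ) (x : ℂ) :
    mol ρ f x = ∫ y, f y * tb ρ x y := by
  unfold mol
  rw [convolution_eq_swap]
  congr 1
  funext y
  simp only [ContinuousLinearMap.lsmul_apply, tb, Complex.real_smul]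
  ring

theorem tb_fderiv (ρ : ContDiffBump (0 : ℂ)) (x y v : ℂ) :
    fderiv ℝ (tb ρ x) y v = -((fderiv ℝ (ρ.normed volume) (x - y) v : ℝ) : ℂ) := by
  have h0 : DifferentiableAt ℝ (ρ.normed volume) (x - y) :=
    ((ρ.contDiff_normed (n := 1)).differentiable one_ne_zero).differentiableAt
  have h1 : HasFDerivAt (fun y : ℂ => x - y) (-ContinuousLinearMap.id ℝ ℂ) y :=
    (hasFDerivAt_id y).const_sub x
  have h2 := h0.hasFDerivAt.comp y h1
  have h3 := Complex.ofRealCLM.hasFDerivAt.comp y h2
  have h4 : fderiv ℝ (tb ρ x) y = _ := h3.fderiv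
  rw [h4]
  simp

theorem dbar_mol (ρ : ContDiffBump (0 : ℂ)) {f : ℂ → ℂ} (hf : LocallyIntegrable f volume) (x : ℂ) :
    dbar (mol ρ f) x = - ∫ y, f y * dbar (tb ρ x) y := by
  have hL : mol ρ f = (f ⋆[(ContinuousLinearMap.lsmul ℝ ℝ).flip, volume] ρ.normed volume) := by
    unfold mol
    rw [convolution_flip]
  have hρ : ContDiff ℝ 1 (ρ.normed volume) := ρ.contDiff_normed
  have h1 := ρ.hasCompactSupport_normed.hasFDerivAt_convolution_right
    ((ContinuousLinearMap.lsmul ℝ ℝ).flip : ℂ →L[ℝ] ℝ →L[ℝ] ℂ) hf hρ x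
  have h2 : ∀ v : ℂ, fderiv ℝ (mol ρ f) x v = ∫ y, f y * ((fderiv ℝ (ρ.normed volume) (x - y) v : ℝ) : ℂ) := by
    intro v
    rw [hL, h1.fderiv]
    rw [convolution_precompR_apply _ hf (ρ.hasCompactSupport_normed.fderiv ℝ)
      (hρ.continuous_fderiv one_ne_zero)]
    unfold convolution
    congr 1
    funext y
    simp only [ContinuousLinearMap.flip_apply, ContinuousLinearMap.lsmul_apply, Complex.real_smul]
    ring
  have hi : ∀ v : ℂ, Integrable fun y => f y * ((fderiv ℝ (ρ.normed volume) (x - y) v : ℝ) : ℂ) := by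
    intro v
    have h3 : HasCompactSupport (fun z => fderiv ℝ (ρ.normed (volume : Measure ℂ)) z v) := by
      apply HasCompactSupport.intro (K := tsupport (fderiv ℝ (ρ.normed (volume : Measure ℂ))))
        (ρ.hasCompactSupport_normed.fderiv ℝ)
      intro z hz
      rw [image_eq_zero_of_notMem_tsupport hz]
      rfl
    have h4 := (h3.convolutionExists_right
      ((ContinuousLinearMap.lsmul ℝ ℝ).flip : ℂ →L[ℝ] ℝ →L[ℝ] ℂ) hf
      ((hρ.continuous_fderiv one_ne_zero).clm_apply continuous_const)) x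
    refine h4.congr (Eventually.of_forall fun y => ?_)
    simp only [ContinuousLinearMap.flip_apply, ContinuousLinearMap.lsmul_apply, Complex.real_smul]
    ring
  have h5 : ∀ y, f y * dbar (tb ρ x) y = -((1 / 2 : ℂ) *
      (f y * ((fderiv ℝ (ρ.normed volume) (x - y) 1 : ℝ) : ℂ) +
      Complex.I * (f y * ((fderiv ℝ (ρ.normed volume) (x - y) Complex.I : ℝ) : ℂ)))) := by
    intro y
    simp only [dbar, tb_fderiv]
    ring
  simp only [h5]
  rw [integral_neg, neg_neg, integral_const_mul, integral_add (hi 1) ((hi _).const_mul _),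
    integral_const_mul]
  simp only [dbar, h2]

/-- **Mollification.** -/
theorem wd_approx {U K : Set ℂ} (hU : IsOpen U) (hK : IsCompact K) (hKU : K ⊆ U) {f g : ℂ → ℂ}
    (hf : ContinuousOn f U) (hg : ContinuousOn g U) (h : WD U f g) :
    ∃ u : ℕ → ℂ → ℂ, (∀ n, ContDiff ℝ ∞ (u n)) ∧ TendstoUniformlyOn u f atTop K ∧
      TendstoUniformlyOn (fun n => dbar (u n)) g atTop K ∧
      ((∀ z ∈ U, g z = 0) → ∀ n, ∀ z ∈ K, dbar (u n) z = 0) := by
  obtain ⟨δ, hδ, hδU⟩ := hK.exists_cthickening_subset_open hU hKU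
  set K' := cthickening δ K with hK'
  have hK'c : IsCompact K' := hK.cthickening
  -- the bumps
  let ρ : ℕ → ContDiffBump (0 : ℂ) := fun n => ⟨δ / (n + 2) / 2, δ / (n + 2),
    by positivity, half_lt_self (by positivity)⟩
  have hρ : ∀ n, (ρ n).rOut = δ / (n + 2) := fun n => rfl
  have hρδ : ∀ n, (ρ n).rOut ≤ δ := by
    intro n
    rw [hρ, div_le_iff₀ (by positivity)]
    have : (0 : ℝ) ≤ n := Nat.cast_nonneg n
    nlinarith
  have hsub : ∀ n, ∀ x ∈ K, closedBall x (ρ n).rOut ⊆ K' := by
    intro n x hx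
    exact (closedBall_subset_closedBall (hρδ n)).trans (closedBall_subset_cthickening hx δ)
  have hloc : ∀ w : ℂ → ℂ, ContinuousOn w U → LocallyIntegrable (K'.indicator w) volume := by
    intro w hw
    exact ((integrable_indicator_iff hK'c.measurableSet).2
      ((hw.mono hδU).integrableOn_compact hK'c)).locallyIntegrable
  have happ : ∀ w : ℂ → ℂ, ContinuousOn w U →
      TendstoUniformlyOn (fun n => mol (ρ n) (K'.indicator w)) w atTop K := by
    intro w hw
    rw [Metric.tendstoUniformlyOn_iff]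
    intro ε hε
    have huc : UniformContinuousOn w K' := hK'c.uniformContinuousOn_of_continuous (hw.mono hδU)
    rw [Metric.uniformContinuousOn_iff] at huc
    obtain ⟨η, hη, hη2⟩ := huc (ε / 2) (by positivity)
    have hlim : Tendsto (fun n : ℕ => δ / ((n : ℝ) + 2)) atTop (𝓝 0) := by
      apply Tendsto.div_atTop tendsto_const_nhds
      exact tendsto_atTop_add_const_right _ _ tendsto_natCast_atTop_atTop
    filter_upwards [hlim.eventually (gt_mem_nhds hη)] with n hn x hx
    have hxK' : x ∈ K' := self_subset_cthickening K hx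
    have h1 : dist (mol (ρ n) (K'.indicator w) x) (K'.indicator w x) ≤ ε / 2 := by
      apply ContDiffBump.dist_normed_convolution_le
      · exact (hloc w hw).aestronglyMeasurable
      · intro y hy
        have hyK' : y ∈ K' := hsub n x hx (ball_subset_closedBall hy)
        rw [indicator_of_mem hyK', indicator_of_mem hxK']
        refine (hη2 y hyK' x hxK' ?_).le
        rw [mem_ball, hρ] at hy
        exact hy.trans hn
    rw [indicator_of_mem hxK'] at h1
    rw [dist_comm]
    linarith
  have hkey : ∀ n, ∀ x ∈ K, dbar (mol (ρ n) (K'.indicator f)) x =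
      mol (ρ n) (K'.indicator g) x := by
    intro n x hx
    have hout : ∀ y, y ∉ K' → y ∉ tsupport (tb (ρ n) x) := fun y hy h2 =>
      hy (hsub n x hx (tb_tsupport _ _ h2))
    have e1 : ∀ y, K'.indicator f y * dbar (tb (ρ n) x) y = f y * dbar (tb (ρ n) x) y := by
      intro y
      by_cases hy : y ∈ K'
      · rw [indicator_of_mem hy]
      · rw [dbar_eq_zero (hout y hy), mul_zero, mul_zero]
    have e2 : ∀ y, K'.indicator g y * tb (ρ n) x y = g y * tb (ρ n) x y := by
      intro y
      by_cases hy : y ∈ K'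
      · rw [indicator_of_mem hy]
      · rw [image_eq_zero_of_notMem_tsupport (hout y hy), mul_zero, mul_zero]
    rw [dbar_mol _ (hloc f hf), mol_apply]
    simp only [e1, e2]
    rw [h _ (tb_contDiff _ _) (tb_hcs _ _)
      (((tb_tsupport _ _).trans (hsub n x hx)).trans hδU), neg_neg]
  refine ⟨fun n => mol (ρ n) (K'.indicator f), fun n => mol_contDiff _ (hloc f hf), happ f hf,
    ?_, ?_⟩
  · refine (happ g hg).congr (Eventually.of_forall fun n x hx => (hkey n x hx).symm)
  · intro h0 n x hx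
    rw [hkey n x hx, mol_apply]
    have : ∀ y, K'.indicator g y * tb (ρ n) x y = 0 := by
      intro y
      by_cases hy : y ∈ K'
      · rw [indicator_of_mem hy, h0 y (hδU hy), zero_mul]
      · rw [indicator_of_notMem hy, zero_mul]
    simp [this]

/-- the limit under the integral sign -/
theorem tendsto_int {K : Set ℂ} (hK : IsCompact K) {w : ℕ → ℂ → ℂ} {w0 h : ℂ → ℂ}
    (hw : ∀ᶠ n in atTop, ContinuousOn (w n) K) (hu : TendstoUniformlyOn w w0 atTop K)
    (hh : Continuous h) (hs : ∀ z, z ∉ K → h z = 0) :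
    Tendsto (fun n => ∫ z, w n z * h z) atTop (𝓝 (∫ z, w0 z * h z)) := by
  have hw0 : ContinuousOn w0 K := hu.continuousOn hw.frequently
  obtain ⟨B, hB⟩ := hK.exists_bound_of_continuousOn hw0
  have hint : Integrable fun z => ‖h z‖ * (B + 1) := by
    have : Integrable fun z => (1 : ℂ) * h z := integrable_mul hK continuousOn_const hh hs
    simp only [one_mul] at this
    exact this.norm.mul_const _
  apply tendsto_integral_filter_of_dominated_convergence (fun z => ‖h z‖ * (B + 1))
  · filter_upwards [hw] with n hn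
    exact (integrable_mul hK hn hh hs).aestronglyMeasurable
  · have h1 := (Metric.tendstoUniformlyOn_iff.1 hu) 1 one_pos
    filter_upwards [h1] with n hn
    refine Eventually.of_forall fun z => ?_
    by_cases hz : z ∈ K
    · rw [norm_mul, mul_comm]
      apply mul_le_mul_of_nonneg_left _ (norm_nonneg _)
      have h2 := hn z hz
      rw [dist_eq_norm] at h2
      have h3 : ‖w n z‖ ≤ ‖w0 z‖ + ‖w0 z - w n z‖ := by
        have : w n z = w0 z - (w0 z - w n z) := by ring
        calc ‖w n z‖ = ‖w0 z - (w0 z - w n z)‖ := by rw [← this]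
          _ ≤ _ := norm_sub_le _ _
      have h4 := hB z hz
      linarith
    · rw [hs z hz]
      simp
  · exact hint
  · refine Eventually.of_forall fun z => ?_
    by_cases hz : z ∈ K
    · exact (hu.tendsto_at hz).mul_const _
    · simp only [hs z hz, mul_zero]
      exact tendsto_const_nhds

/-- product rule -/
theorem WD.mul {U : Set ℂ} (hU : IsOpen U) {f g f' g' : ℂ → ℂ} (h : WD U f g) (h' : WD U f' g')
    (hf : ContinuousOn f U) (hg : ContinuousOn g U) (hf' : ContinuousOn f' U)
    (hg' : ContinuousOn g' U) :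
    WD U (fun z => f z * f' z) (fun z => g z * f' z + f z * g' z) := by
  intro φ hφ hc hs
  set K := tsupport φ with hKdef
  have hK : IsCompact K := hc
  obtain ⟨u, hu1, hu2, hu3, -⟩ := wd_approx hU hK hs hf hg h
  have z0 : ∀ z, z ∉ K → dbar φ z = 0 := fun z hz => dbar_eq_zero hz
  have z1 : ∀ z, z ∉ K → φ z = 0 := fun z hz => image_eq_zero_of_notMem_tsupport hz
  -- extend the second factor by a continuous function: use integrals directly
  have hf'K := hf'.mono hs
  have hg'K := hg'.mono hs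
  have hfK := hf.mono hs
  have hgK := hg.mono hs
  have key : ∀ n, ∫ z, u n z * f' z * dbar φ z =
      - ∫ z, (dbar (u n) z * f' z + u n z * g' z) * φ z := by
    intro n
    have hun : ContDiff ℝ ∞ (fun z => u n z * φ z) := (hu1 n).mul hφ
    have huc : HasCompactSupport (fun z => u n z * φ z) := hc.mul_left
    have hts : tsupport (fun z => u n z * φ z) ⊆ U :=
      (tsupport_mul_subset_right (f := u n) (g := φ)).trans hs
    have h1 := h' (fun z => u n z * φ z) hun huc hts
    have h2 : ∀ z, dbar (fun z => u n z * φ z) z = dbar (u n) z * φ z + u n z * dbar φ z :=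
      fun z => dbar_mul ((hu1 n).contDiffAt.differentiableAt (by simp))
        (hφ.contDiffAt.differentiableAt (by simp))
    have hdu : Continuous (dbar (u n)) := continuous_dbar (hu1 n)
    have i1 : Integrable fun z => f' z * (dbar (u n) z * φ z) :=
      integrable_mul hK hf'K (hdu.mul hφ.continuous) fun z hz => by rw [z1 z hz, mul_zero]
    have i2 : Integrable fun z => f' z * (u n z * dbar φ z) :=
      integrable_mul hK hf'K ((hu1 n).continuous.mul (continuous_dbar hφ))
        fun z hz => by rw [z0 z hz, mul_zero]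
    have i3 : Integrable fun z => g' z * (u n z * φ z) :=
      integrable_mul hK hg'K ((hu1 n).continuous.mul hφ.continuous)
        fun z hz => by rw [z1 z hz, mul_zero]
    simp only [h2, mul_add] at h1
    rw [integral_add i1 i2] at h1
    have e1 : ∫ z, u n z * f' z * dbar φ z = ∫ z, f' z * (u n z * dbar φ z) := by
      congr 1; funext z; ring
    have e2 : ∫ z, (dbar (u n) z * f' z + u n z * g' z) * φ z =
        ∫ z, (f' z * (dbar (u n) z * φ z) + g' z * (u n z * φ z)) := by
      congr 1; funext z; ring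
    rw [e1, e2, integral_add i1 i3]
    linear_combination h1
  have l1 : Tendsto (fun n => ∫ z, u n z * f' z * dbar φ z) atTop
      (𝓝 (∫ z, f z * f' z * dbar φ z)) := by
    apply tendsto_int hK _ _ (continuous_dbar hφ) z0
    · exact Eventually.of_forall fun n => (hu1 n).continuous.continuousOn.mul hf'K
    · obtain ⟨B, hB⟩ := hK.exists_bound_of_continuousOn hf'K
      rw [Metric.tendstoUniformlyOn_iff] at hu2 ⊢
      intro ε hε
      filter_upwards [hu2 (ε / (|B| + 1)) (by positivity)] with n hn z hz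
      have h3 := hn z hz
      rw [dist_eq_norm] at h3 ⊢
      rw [← sub_mul, norm_mul]
      have h4 : ‖f' z‖ ≤ |B| := (hB z hz).trans (le_abs_self B)
      calc ‖f z - u n z‖ * ‖f' z‖ ≤ ‖f z - u n z‖ * (|B| + 1) := by gcongr; linarith
        _ < ε / (|B| + 1) * (|B| + 1) := by gcongr
        _ = ε := by field_simp
  have l2 : Tendsto (fun n => ∫ z, (dbar (u n) z * f' z + u n z * g' z) * φ z) atTop
      (𝓝 (∫ z, (g z * f' z + f z * g' z) * φ z)) := by
    apply tendsto_int hK _ _ hφ.continuous z1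
    · exact Eventually.of_forall fun n => ((continuous_dbar (hu1 n)).continuousOn.mul hf'K).add
        ((hu1 n).continuous.continuousOn.mul hg'K)
    · obtain ⟨B, hB⟩ := hK.exists_bound_of_continuousOn hf'K
      obtain ⟨B', hB'⟩ := hK.exists_bound_of_continuousOn hg'K
      rw [Metric.tendstoUniformlyOn_iff] at hu2 hu3 ⊢
      intro ε hε
      filter_upwards [hu3 (ε / 2 / (|B| + 1)) (by positivity),
        hu2 (ε / 2 / (|B'| + 1)) (by positivity)] with n hn hn' z hz
      have h3 := hn z hz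
      have h3' := hn' z hz
      rw [dist_eq_norm] at h3 h3' ⊢
      have h4 : ‖f' z‖ ≤ |B| := (hB z hz).trans (le_abs_self B)
      have h4' : ‖g' z‖ ≤ |B'| := (hB' z hz).trans (le_abs_self B')
      have e : g z * f' z + f z * g' z - (dbar (u n) z * f' z + u n z * g' z) =
        (g z - dbar (u n) z) * f' z + (f z - u n z) * g' z := by ring
      rw [e]
      calc ‖(g z - dbar (u n) z) * f' z + (f z - u n z) * g' z‖
          ≤ ‖g z - dbar (u n) z‖ * ‖f' z‖ + ‖f z - u n z‖ * ‖g' z‖ := by
            refine (norm_add_le _ _).trans ?_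
            rw [norm_mul, norm_mul]
        _ ≤ ‖g z - dbar (u n) z‖ * (|B| + 1) + ‖f z - u n z‖ * (|B'| + 1) := by
            gcongr <;> linarith
        _ < ε / 2 / (|B| + 1) * (|B| + 1) + ε / 2 / (|B'| + 1) * (|B'| + 1) := by gcongr
        _ = ε := by field_simp; ring
  have l3 := l2.neg
  simp only [← key] at l3
  exact tendsto_nhds_unique l1 l3

/-- the inverse -/
theorem WD.inv {U : Set ℂ} (hU : IsOpen U) {f g : ℂ → ℂ} (h : WD U f g)
    (hf : ContinuousOn f U) (hg : ContinuousOn g U) (h0 : ∀ z ∈ U, f z ≠ 0) :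
    WD U (fun z => (f z)⁻¹) (fun z => - g z / (f z) ^ 2) := by
  intro φ hφ hc hs
  set K := tsupport φ with hKdef
  have hK : IsCompact K := hc
  have z0 : ∀ z, z ∉ K → dbar φ z = 0 := fun z hz => dbar_eq_zero hz
  have z1 : ∀ z, z ∉ K → φ z = 0 := fun z hz => image_eq_zero_of_notMem_tsupport hz
  obtain ⟨u, hu1, hu2, hu3, -⟩ := wd_approx hU hK hs hf hg h
  have hfK := hf.mono hs
  have hgK := hg.mono hs
  -- lower bound
  obtain ⟨c, hc0, hc1⟩ : ∃ c : ℝ, 0 < c ∧ ∀ z ∈ K, c ≤ ‖f z‖ := by
    rcases K.eq_empty_or_nonempty with he | hne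
    · exact ⟨1, one_pos, by simp [he]⟩
    · obtain ⟨z, hz, hz2⟩ := hK.exists_isMinOn hne hfK.norm
      exact ⟨‖f z‖, norm_pos_iff.2 (h0 z (hs hz)), fun w hw => hz2 hw⟩
  have hlow : ∀ᶠ n in atTop, ∀ z ∈ K, c / 2 ≤ ‖u n z‖ := by
    filter_upwards [(Metric.tendstoUniformlyOn_iff.1 hu2) (c / 2) (by positivity)] with n hn z hz
    have h3 := hn z hz
    rw [dist_eq_norm] at h3
    have h4 := hc1 z hz
    have h5 : ‖f z‖ ≤ ‖u n z‖ + ‖f z - u n z‖ := by
      have : f z = u n z + (f z - u n z) := by ring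
      calc ‖f z‖ = ‖u n z + (f z - u n z)‖ := by rw [← this]
        _ ≤ _ := norm_add_le _ _
    linarith
  have hne : ∀ᶠ n in atTop, ∀ z ∈ K, u n z ≠ 0 := by
    filter_upwards [hlow] with n hn z hz h3
    have := hn z hz
    rw [h3, norm_zero] at this
    linarith
  have key : ∀ᶠ n in atTop, ∫ z, (u n z)⁻¹ * dbar φ z =
      - ∫ z, (- dbar (u n) z / (u n z) ^ 2) * φ z := by
    filter_upwards [hne] with n hn
    have hV : IsOpen {z | u n z ≠ 0} := isOpen_ne_fun (hu1 n).continuous continuous_const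
    have h1 : ContDiffOn ℝ 1 (fun z => (u n z)⁻¹) {z | u n z ≠ 0} :=
      (((hu1 n).of_le (by simp)).contDiffOn).inv fun z hz => hz
    have h2 := ibp hV h1 hφ hc (fun z hz => hn z hz)
    rw [h2]
    congr 2
    funext z
    by_cases hz : z ∈ K
    · rw [dbar_inv ((hu1 n).contDiffAt.differentiableAt (by simp)) (hn z hz)]
    · rw [z1 z hz]; simp
  obtain ⟨B, hB⟩ := hK.exists_bound_of_continuousOn hgK
  obtain ⟨B2, hB2⟩ := hK.exists_bound_of_continuousOn hfK
  have hinv : TendstoUniformlyOn (fun n z => (u n z)⁻¹) (fun z => (f z)⁻¹) atTop K := by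
    rw [Metric.tendstoUniformlyOn_iff]
    intro ε hε
    filter_upwards [hlow, hne, (Metric.tendstoUniformlyOn_iff.1 hu2) (ε * (c * (c / 2)))
      (by positivity)] with n hn1 hn2 hn3 z hz
    have h3 := hn3 z hz
    rw [dist_eq_norm] at h3 ⊢
    have hfz := h0 z (hs hz)
    have huz := hn2 z hz
    have e : (f z)⁻¹ - (u n z)⁻¹ = - (f z - u n z) / (f z * u n z) := by
      field_simp
      ring
    rw [e, norm_div, norm_neg, norm_mul, div_lt_iff₀ (by positivity)]
    calc ‖f z - u n z‖ < ε * (c * (c / 2)) := h3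
      _ ≤ ε * (‖f z‖ * ‖u n z‖) := by
        have := hc1 z hz
        have := hn1 z hz
        gcongr
  have l1 : Tendsto (fun n => ∫ z, (u n z)⁻¹ * dbar φ z) atTop
      (𝓝 (∫ z, (f z)⁻¹ * dbar φ z)) := by
    apply tendsto_int hK _ hinv (continuous_dbar hφ) z0
    filter_upwards [hne] with n hn
    exact (hu1 n).continuous.continuousOn.inv₀ hn
  have l2 : Tendsto (fun n => ∫ z, (- dbar (u n) z / (u n z) ^ 2) * φ z) atTop
      (𝓝 (∫ z, (- g z / (f z) ^ 2) * φ z)) := by
    apply tendsto_int hK _ _ hφ.continuous z1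
    · filter_upwards [hne] with n hn
      exact (continuous_dbar (hu1 n)).continuousOn.neg.div
        ((hu1 n).continuous.continuousOn.pow 2) fun z hz => pow_ne_zero 2 (hn z hz)
    · -- uniform convergence of the product
      rw [Metric.tendstoUniformlyOn_iff]
      intro ε hε
      have hcc : 0 < c := hc0
      set D : ℝ := (|B| + 1) * (c⁻¹ + (c / 2)⁻¹) + 1 with hD
      have hDpos : 0 < D := by positivity
      filter_upwards [hlow, hne, (Metric.tendstoUniformlyOn_iff.1 hinv) (ε / 2 / D)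
        (by positivity), (Metric.tendstoUniformlyOn_iff.1 hu3) (ε / 2 * (c / 2) ^ 2)
        (by positivity)] with n hn1 hn2 hn3 hn4 z hz
      have h3 := hn3 z hz
      have h4 := hn4 z hz
      rw [dist_eq_norm] at h3 h4 ⊢
      have hfz := h0 z (hs hz)
      have huz := hn2 z hz
      have hf1 : ‖(f z)⁻¹‖ ≤ c⁻¹ := by
        rw [norm_inv]
        exact inv_anti₀ hc0 (hc1 z hz)
      have hu1' : ‖(u n z)⁻¹‖ ≤ (c / 2)⁻¹ := by
        rw [norm_inv]
        exact inv_anti₀ (by positivity) (hn1 z hz)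
      have e : - g z / (f z) ^ 2 - - dbar (u n) z / (u n z) ^ 2 =
          - (g z) * ((f z)⁻¹ - (u n z)⁻¹) * ((f z)⁻¹ + (u n z)⁻¹) -
          (g z - dbar (u n) z) * ((u n z)⁻¹ * (u n z)⁻¹) := by
        field_simp
        ring
      rw [e]
      have hgB : ‖g z‖ ≤ |B| := (hB z hz).trans (le_abs_self B)
      have t1 : ‖- (g z) * ((f z)⁻¹ - (u n z)⁻¹) * ((f z)⁻¹ + (u n z)⁻¹)‖ ≤
          (ε / 2 / D) * D := by
        rw [norm_mul, norm_mul, norm_neg]
        have h5 : ‖(f z)⁻¹ + (u n z)⁻¹‖ ≤ c⁻¹ + (c / 2)⁻¹ := (norm_add_le _ _).trans (by gcongr)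
        calc ‖g z‖ * ‖(f z)⁻¹ - (u n z)⁻¹‖ * ‖(f z)⁻¹ + (u n z)⁻¹‖
            ≤ |B| * (ε / 2 / D) * (c⁻¹ + (c / 2)⁻¹) := by gcongr
          _ = (ε / 2 / D) * (|B| * (c⁻¹ + (c / 2)⁻¹)) := by ring
          _ ≤ (ε / 2 / D) * D := by
            gcongr
            rw [hD]
            have : 0 < c⁻¹ + (c / 2)⁻¹ := by positivity
            nlinarith
      have t2 : ‖(g z - dbar (u n) z) * ((u n z)⁻¹ * (u n z)⁻¹)‖ < ε / 2 := by
        rw [norm_mul, norm_mul]
        calc ‖g z - dbar (u n) z‖ * (‖(u n z)⁻¹‖ * ‖(u n z)⁻¹‖)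
            ≤ ‖g z - dbar (u n) z‖ * ((c / 2)⁻¹ * (c / 2)⁻¹) := by gcongr
          _ < (ε / 2 * (c / 2) ^ 2) * ((c / 2)⁻¹ * (c / 2)⁻¹) := by gcongr
          _ = ε / 2 := by field_simp
      calc ‖- (g z) * ((f z)⁻¹ - (u n z)⁻¹) * ((f z)⁻¹ + (u n z)⁻¹) -
          (g z - dbar (u n) z) * ((u n z)⁻¹ * (u n z)⁻¹)‖
          ≤ _ + _ := norm_sub_le _ _
        _ < (ε / 2 / D) * D + ε / 2 := by linarith
        _ = ε := by field_simp; ring
  have l3 := l2.neg
  exact tendsto_nhds_unique l1 (l3.congr' (key.mono fun n hn => hn.symm))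

/-- **Weyl lemma**: a continuous function whose weak derivative with respect to the conjugate
variable vanishes is holomorphic -/
theorem WD.holo {U : Set ℂ} (hU : IsOpen U) {f : ℂ → ℂ} (hf : ContinuousOn f U)
    (h : WD U f fun _ => 0) : DifferentiableOn ℂ f U := by
  intro z hz
  obtain ⟨r, hr, hrU⟩ := nhds_basis_closedBall.mem_iff.1 (hU.mem_nhds hz)
  obtain ⟨u, hu1, hu2, -, hu4⟩ := wd_approx hU (isCompact_closedBall z r) hrU hf
    continuousOn_const h
  have hd : ∀ n, DifferentiableOn ℂ (u n) (ball z r) := by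
    intro n w hw
    have hR : DifferentiableAt ℝ (u n) w := (hu1 n).contDiffAt.differentiableAt (by simp)
    have h0 := hu4 (fun _ _ => rfl) n w (ball_subset_closedBall hw)
    have h1 : fderiv ℝ (u n) w Complex.I = Complex.I * fderiv ℝ (u n) w 1 := by
      unfold dbar at h0
      have h2 : fderiv ℝ (u n) w 1 + Complex.I * fderiv ℝ (u n) w Complex.I = 0 := by
        rcases mul_eq_zero.1 h0 with h3 | h3
        · norm_num at h3
        · exact h3
      have h3 := congrArg (fun x => - (Complex.I) * x) h2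
      simp only [mul_add, mul_zero] at h3
      have h4 : -Complex.I * (Complex.I * fderiv ℝ (u n) w Complex.I) =
          fderiv ℝ (u n) w Complex.I := by
        rw [← mul_assoc, neg_mul, Complex.I_mul_I]; ring
      rw [h4] at h3
      linear_combination h3
    exact (differentiableAt_complex_iff_differentiableAt_real.2
      ⟨hR, by simpa using h1⟩).differentiableWithinAt
  have hu5 : TendstoLocallyUniformlyOn u f atTop (ball z r) :=
    (hu2.mono ball_subset_closedBall).tendstoLocallyUniformlyOn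
  have h6 : DifferentiableOn ℂ f (ball z r) :=
    hu5.differentiableOn (Eventually.of_forall hd) isOpen_ball
  exact ((h6 z (mem_ball_self hr)).differentiableAt (isOpen_ball.mem_nhds
    (mem_ball_self hr))).differentiableWithinAt

end Pool.Agent.MPd01a95.BU
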