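import Mathlib

/-!
# MP_d01a95_gt, m = 2, part (1), block L: weak Wirtinger calculus (helper72)

`WD U f g`: the weak derivative with respect to the conjugate variable of `f` on `U` is `g`.
-/

set_option autoImplicit false
set_option linter.all false

open MeasureTheory Filter Topology Set Metric
open scoped ContDiff Convolution

namespace Pool.Agent.MPd01a95.BU

/-- the Wirtinger derivative with respect to the conjugate variable -/
noncomputable def dbar (f : ℂ → ℂ) (z : ℂ) : ℂ :=
  (1 / 2 : ℂ) * (fderiv ℝ f z 1 + Complex.I * fderiv ℝ f z Complex.I)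

/-- weak derivative with respect to the conjugate variable -/
def WD (U : Set ℂ) (f g : ℂ → ℂ) : Prop :=
  ∀ φ : ℂ → ℂ, ContDiff ℝ ∞ φ → HasCompactSupport φ → tsupport φ ⊆ U →
    ∫ z, f z * dbar φ z = - ∫ z, g z * φ z

theorem dbar_mul {f g : ℂ → ℂ} {z : ℂ} (hf : DifferentiableAt ℝ f z)
    (hg : DifferentiableAt ℝ g z) :
    dbar (fun z => f z * g z) z = dbar f z * g z + f z * dbar g z := by
  have h : fderiv ℝ (fun z => f z * g z) z = f z • fderiv ℝ g z + g z • fderiv ℝ f z :=
    fderiv_fun_mul hf hg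
  simp only [dbar, h, ContinuousLinearMap.add_apply, ContinuousLinearMap.smul_apply, smul_eq_mul]
  ring

theorem dbar_inv {f : ℂ → ℂ} {z : ℂ} (hf : DifferentiableAt ℝ f z) (h0 : f z ≠ 0) :
    dbar (fun z => (f z)⁻¹) z = - dbar f z / (f z) ^ 2 := by
  have h1 : HasFDerivAt (fun w : ℂ => w⁻¹)
      ((ContinuousLinearMap.toSpanSingleton ℂ (-(f z ^ 2)⁻¹) : ℂ →L[ℂ] ℂ).restrictScalars ℝ) (f z) :=
    (hasDerivAt_inv h0).hasFDerivAt.restrictScalars ℝ
  have h2 := h1.comp z hf.hasFDerivAt
  have h3 : fderiv ℝ (fun z => (f z)⁻¹) z = _ := h2.fderiv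
  simp only [dbar, h3]
  simp only [ContinuousLinearMap.coe_comp', Function.comp_apply,
    ContinuousLinearMap.coe_restrictScalars', ContinuousLinearMap.toSpanSingleton_apply,
    smul_eq_mul]
  field_simp
  ring

theorem continuous_dbar {φ : ℂ → ℂ} (h : ContDiff ℝ ∞ φ) : Continuous (dbar φ) := by
  have h1 : Continuous fun z => fderiv ℝ φ z := h.continuous_fderiv (by simp)
  have h2 : Continuous fun z => fderiv ℝ φ z 1 := h1.clm_apply continuous_const
  have h3 : Continuous fun z => fderiv ℝ φ z Complex.I := h1.clm_apply continuous_const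
  exact continuous_const.mul (h2.add (continuous_const.mul h3))

theorem dbar_eq_zero {φ : ℂ → ℂ} {z : ℂ} (hz : z ∉ tsupport φ) : dbar φ z = 0 := by
  have h : fderiv ℝ φ z = 0 := by
    have h1 : z ∉ tsupport (fderiv ℝ φ) := fun h => hz (tsupport_fderiv_subset ℝ h)
    exact image_eq_zero_of_notMem_tsupport h1
  simp [dbar, h]

theorem dbar_hcs {φ : ℂ → ℂ} (h : HasCompactSupport φ) : HasCompactSupport (dbar φ) := by
  apply HasCompactSupport.intro h
  intro z hz
  exact dbar_eq_zero hz

/-- continuous on a neighbourhood of the compact set carrying the other factor -/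
theorem integrable_mul {K : Set ℂ} (hK : IsCompact K) {f h : ℂ → ℂ} (hf : ContinuousOn f K)
    (hh : Continuous h) (hs : ∀ z, z ∉ K → h z = 0) : Integrable fun z => f z * h z := by
  have h1 : IntegrableOn (fun z => f z * h z) K := (hf.mul hh.continuousOn).integrableOn_compact hK
  have h2 : (fun z => f z * h z) = K.indicator (fun z => f z * h z) := by
    funext z
    by_cases hz : z ∈ K
    · rw [indicator_of_mem hz]
    · rw [indicator_of_notMem hz, hs z hz, mul_zero]
  rw [h2]
  exact (integrable_indicator_iff hK.measurableSet).2 h1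

/-- integration by parts for a function which is `C^1` near the support of the test function -/
theorem ibp {f φ : ℂ → ℂ} {U : Set ℂ} (hU : IsOpen U) (hf : ContDiffOn ℝ 1 f U)
    (hφ : ContDiff ℝ ∞ φ) (hc : HasCompactSupport φ) (hs : tsupport φ ⊆ U) :
    ∫ z, f z * dbar φ z = - ∫ z, dbar f z * φ z := by
  have hK : IsCompact (tsupport φ) := hc
  have hfK : ContinuousOn f (tsupport φ) := hf.continuousOn.mono hs
  have hf'K : ∀ v : ℂ, ContinuousOn (fun z => fderiv ℝ f z v) (tsupport φ) := by
    intro v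
    have h1 : ContinuousOn (fun z => fderiv ℝ f z) U := hf.continuousOn_fderiv_of_isOpen hU le_rfl
    exact (h1.mono hs).clm_apply continuousOn_const
  have hφ' : ∀ v : ℂ, Continuous (fun z => fderiv ℝ φ z v) := fun v =>
    (hφ.continuous_fderiv (by simp)).clm_apply continuous_const
  have hφs : ∀ v z, z ∉ tsupport φ → fderiv ℝ φ z v = 0 := by
    intro v z hz
    have h1 : z ∉ tsupport (fderiv ℝ φ) := fun h => hz (tsupport_fderiv_subset ℝ h)
    rw [image_eq_zero_of_notMem_tsupport h1]
    rfl
  have hφ0 : ∀ z, z ∉ tsupport φ → φ z = 0 := fun z hz => image_eq_zero_of_notMem_tsupport hz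
  have key : ∀ v : ℂ, ∫ z, f z * fderiv ℝ φ z v = - ∫ z, fderiv ℝ f z v * φ z := by
    intro v
    apply integral_mul_fderiv_eq_neg_fderiv_mul_of_integrable
    · exact integrable_mul hK (hf'K v) hφ.continuous hφ0
    · exact integrable_mul hK hfK (hφ' v) (hφs v)
    · exact integrable_mul hK hfK hφ.continuous hφ0
    · intro x hx
      exact ((hf x (hs hx)).contDiffAt (hU.mem_nhds (hs hx))).differentiableAt one_ne_zero
    · intro x _
      exact hφ.contDiffAt.differentiableAt (by simp)
  have i1 := integrable_mul hK hfK (hφ' 1) (hφs 1)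
  have i2 := integrable_mul hK hfK (hφ' Complex.I) (hφs Complex.I)
  have j1 := integrable_mul hK (hf'K 1) hφ.continuous hφ0
  have j2 := integrable_mul hK (hf'K Complex.I) hφ.continuous hφ0
  have e1 : (fun z => f z * dbar φ z) = fun z => (1 / 2 : ℂ) * (f z * fderiv ℝ φ z 1 +
      Complex.I * (f z * fderiv ℝ φ z Complex.I)) := by
    funext z; simp only [dbar]; ring
  have e2 : (fun z => dbar f z * φ z) = fun z => (1 / 2 : ℂ) * (fderiv ℝ f z 1 * φ z +
      Complex.I * (fderiv ℝ f z Complex.I * φ z)) := by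
    funext z; simp only [dbar]; ring
  rw [e1, e2, integral_const_mul, integral_const_mul, integral_add i1 (i2.const_mul _),
    integral_add j1 (j2.const_mul _), integral_const_mul, integral_const_mul, key, key]
  ring

theorem WD.of_contDiffOn {f : ℂ → ℂ} {U : Set ℂ} (hU : IsOpen U) (hf : ContDiffOn ℝ 1 f U) :
    WD U f (dbar f) := fun _ hφ hc hs => ibp hU hf hφ hc hs

theorem WD.mono {f g : ℂ → ℂ} {U V : Set ℂ} (h : WD U f g) (hV : V ⊆ U) : WD V f g :=
  fun φ hφ hc hs => h φ hφ hc (hs.trans hV)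

theorem WD.congr {f g f' g' : ℂ → ℂ} {U : Set ℂ} (h : WD U f g) (hf : EqOn f f' U)
    (hg : EqOn g g' U) : WD U f' g' := by
  intro φ hφ hc hs
  have e1 : ∀ z, f' z * dbar φ z = f z * dbar φ z := by
    intro z
    by_cases hz : z ∈ tsupport φ
    · rw [hf (hs hz)]
    · rw [dbar_eq_zero hz]; simp
  have e2 : ∀ z, g' z * φ z = g z * φ z := by
    intro z
    by_cases hz : z ∈ tsupport φ
    · rw [hg (hs hz)]
    · rw [image_eq_zero_of_notMem_tsupport hz]; simp
  simp only [e1, e2]
  exact h φ hφ hc hs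

theorem WD.add {f g f' g' : ℂ → ℂ} {U : Set ℂ} (h : WD U f g) (h' : WD U f' g')
    (hf : ContinuousOn f U) (hg : ContinuousOn g U) (hf' : ContinuousOn f' U)
    (hg' : ContinuousOn g' U) : WD U (fun z => f z + f' z) (fun z => g z + g' z) := by
  intro φ hφ hc hs
  have hK : IsCompact (tsupport φ) := hc
  have z0 : ∀ z, z ∉ tsupport φ → dbar φ z = 0 := fun z hz => dbar_eq_zero hz
  have z1 : ∀ z, z ∉ tsupport φ → φ z = 0 := fun z hz => image_eq_zero_of_notMem_tsupport hz
  simp only [add_mul]
  rw [integral_add (integrable_mul hK (hf.mono hs) (continuous_dbar hφ) z0)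
    (integrable_mul hK (hf'.mono hs) (continuous_dbar hφ) z0),
    integral_add (integrable_mul hK (hg.mono hs) hφ.continuous z1)
    (integrable_mul hK (hg'.mono hs) hφ.continuous z1), h φ hφ hc hs, h' φ hφ hc hs]
  ring

theorem WD.const_mul {f g : ℂ → ℂ} {U : Set ℂ} (h : WD U f g) (c : ℂ) :
    WD U (fun z => c * f z) (fun z => c * g z) := by
  intro φ hφ hc hs
  simp only [mul_assoc]
  rw [integral_const_mul, integral_const_mul, h φ hφ hc hs]
  ring

end Pool.Agent.MPd01a95.BU
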